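import Pool.Agent.Lib.MP_af3183_lc.Logic

/-!
Core definitions for MP_af3183_lc (auxiliary, not used in the final statement).

`Fin 15` indexes the coordinates of a constraint, `V` is the finite group of local assignments
(later `Fin 4 → ZMod 2`), `κ k x` is the value of coordinate `k` at the point `x`.
The variables of the system are the pairs `(k, i)` with `k : Fin 15`, `i : Fin N`; constraint `c : Fin M`
uses the variable `(k, r c k)` at coordinate `k` and is shifted by `b c : Fin 15 → ZMod 2`.
The gadget is an index type `J` with point sets `pts j`.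
-/

namespace Pool.Agent.Lib.MP_af3183_lc

open Finset

/-- The set of variables touched by the constraints in `T`. -/
def nbr {M N : ℕ} (r : Fin M → Fin 15 → Fin N) (T : Finset (Fin M)) : Finset (Fin 15 × Fin N) :=
  (T ×ˢ (univ : Finset (Fin 15))).image fun p => (p.2, r p.1 p.2)

/-- Every non-empty set of at most `s` constraints touches more than `55/4` variables per constraint. -/
def Expands {M N : ℕ} (r : Fin M → Fin 15 → Fin N) (s : ℕ) : Prop :=
  ∀ T : Finset (Fin M), T.Nonempty → T.card ≤ s → 55 * T.card < 4 * (nbr r T).card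

/-- `h` is a dual word: orthogonal to all the words `(κ k x)_k`. -/
def Dual {V : Type} (κ : Fin 15 → V → ZMod 2) (h : Fin 15 → ZMod 2) : Prop :=
  ∀ x : V, ∑ k, h k * κ k x = 0

/-- Non-zero dual words have at least three non-zero coordinates. -/
def DualDist3 {V : Type} (κ : Fin 15 → V → ZMod 2) : Prop :=
  ∀ h : Fin 15 → ZMod 2, Dual κ h → h ≠ 0 → 3 ≤ (univ.filter fun k => h k ≠ 0).card

/-- The words `h c` placed on the variables and summed. -/
def place {M N : ℕ} (r : Fin M → Fin 15 → Fin N) (h : Fin M → Fin 15 → ZMod 2)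
    (v : Fin 15 × Fin N) : ZMod 2 :=
  ∑ c, if r c v.1 = v.2 then h c v.1 else 0

/-- The constraints with a non-zero word. -/
def hsupp {M : ℕ} (h : Fin M → Fin 15 → ZMod 2) : Finset (Fin M) := univ.filter fun c => h c ≠ 0

/-- The conflict relation between `(c, F)` and `(c', F')`. -/
def Conf {V : Type} (κ : Fin 15 → V → ZMod 2) {M N : ℕ} (r : Fin M → Fin 15 → Fin N)
    (b : Fin M → Fin 15 → ZMod 2) (c c' : Fin M) (F F' : Finset V) : Prop :=
  (c = c' ∧ Disjoint F F') ∨
    ∃ k, r c k = r c' k ∧ ∀ x ∈ F, ∀ x' ∈ F', κ k x + b c k ≠ κ k x' + b c' k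

/-- The vertex type: pairs of a constraint and a gadget index, and `p` padding vertices. -/
abbrev Vtx (J : Type) (M p : ℕ) : Type := (Fin M × J) ⊕ Fin p

/-- The graph of the system `(r, b)`. -/
def gr {V J : Type} (pts : J → Finset V) (κ : Fin 15 → V → ZMod 2) {M N : ℕ}
    (r : Fin M → Fin 15 → Fin N) (b : Fin M → Fin 15 → ZMod 2) (p : ℕ) :
    SimpleGraph (Vtx J M p) where
  Adj u v := u ≠ v ∧ ∃ a a', u = Sum.inl a ∧ v = Sum.inl a' ∧
    Conf κ r b a.1 a'.1 (pts a.2) (pts a'.2)
  symm := ⟨by
    rintro u v ⟨hne, a, a', rfl, rfl, h⟩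
    refine ⟨hne.symm, a', a, rfl, rfl, ?_⟩
    rcases h with ⟨h1, h2⟩ | ⟨k, h1, h2⟩
    · exact Or.inl ⟨h1.symm, h2.symm⟩
    · exact Or.inr ⟨k, h1.symm, fun x hx x' hx' => (h2 x' hx' x hx).symm⟩⟩
  loopless := ⟨fun u h => h.1 rfl⟩

/-- `F` survives `y`: every coordinate value `y k` is taken on `F`. -/
def Surv {V : Type} (κ : Fin 15 → V → ZMod 2) (y : Fin 15 → ZMod 2) (F : Finset V) : Prop :=
  ∀ k, ∃ x ∈ F, κ k x = y k

/-- A pairwise intersecting family of survivors. -/
def GoodFam {V J : Type} (pts : J → Finset V) (κ : Fin 15 → V → ZMod 2) (y : Fin 15 → ZMod 2)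
    (I : Finset J) : Prop :=
  (∀ j ∈ I, Surv κ y (pts j)) ∧ ∀ j ∈ I, ∀ j' ∈ I, ¬ Disjoint (pts j) (pts j')

open Classical in
/-- The largest size of a pairwise intersecting family of survivors of `y`. -/
noncomputable def Smax {V J : Type} [Fintype J] (pts : J → Finset V) (κ : Fin 15 → V → ZMod 2)
    (y : Fin 15 → ZMod 2) : ℕ :=
  ((univ : Finset (Finset J)).filter fun I => GoodFam pts κ y I).sup Finset.card

/-! ### The concrete gadget in `F_2^4` -/

/-- The space of local assignments. -/
abbrev Vec : Type := Fin 4 → ZMod 2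

/-- The vector with bits `n`. -/
def vec (n : ℕ) : Vec := fun i => if n.testBit i then 1 else 0

/-- Scalar product. -/
def dot (f x : Vec) : ZMod 2 := ∑ i, f i * x i

/-- The coordinate functionals: coordinate `k` is the scalar product with the non-zero vector with bits
`k + 1`. -/
def kap (k : Fin 15) (x : Vec) : ZMod 2 := dot (vec (k + 1)) x

/-- Generators of the six lines of functionals `{a, b, a xor b}` on the first three bits different from
`{3, 5, 6}`. -/
def la : Fin 6 → ℕ := ![1, 1, 1, 2, 2, 3]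
/-- Second generators, see `la`. -/
def lb : Fin 6 → ℕ := ![2, 4, 6, 4, 5, 4]

/-- The index type of the gadget: `inl t` is the translate by `t` of the tetrahedron `{0, e1, e2, e3}`;
`inr (i, α, β, v, w)` is the plane `{x | f x = v, g x = w}` where `f`, `g` are the functionals with bits
`la i + 8 α` and `lb i + 8 β`. It has `16 + 96 = 112` elements. -/
abbrev Gad : Type := Vec ⊕ (Fin 6 × Fin 2 × Fin 2 × ZMod 2 × ZMod 2)

/-- The translate `t + {0, e1, e2, e3}`. -/
def tet (t : Vec) : Finset Vec := {t, t + vec 1, t + vec 2, t + vec 4}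

/-- The point sets of the gadget. -/
def gpts : Gad → Finset Vec
  | Sum.inl t => tet t
  | Sum.inr (i, α, β, v, w) =>
      univ.filter fun x => dot (vec (la i + 8 * α)) x = v ∧ dot (vec (lb i + 8 * β)) x = w

end Pool.Agent.Lib.MP_af3183_lc
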