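import Pool.Agent.Lib.MP_af3183_lc.Core

/-!
# JOB VCC-LemA: small sets of dual words do not cancel

`Expands r s`: every non-empty `T` with at most `s` constraints has `55 |T| < 4 |nbr r T|`.

STATEMENT `lemA`. Let `h c` be dual words, `T = hsupp h = {c | h c != 0}` non-empty with `|T| <= s`. Then
`|T| < 6 * #{v | place r h v != 0}`.

PROOF. Call an incidence `(c, k)`, `c in T`, PRIVATE if `r c' k != r c k` for all `c' in T`, `c' != c`. Let `P` be
the set of private incidences (a subset of `T x univ`, `|T x univ| = 15 |T|`).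
(a) `2 |nbr r T| <= 15 |T| + |P|`: `nbr r T` is the image of `T x univ` under `(c,k) -> (k, r c k)`; every
element of `nbr` has at least one preimage, and those with exactly one preimage correspond to private
incidences; so `sum over v in nbr of (#fiber + [#fiber = 1]) >= 2 |nbr|` and the sum is
`15 |T| + #{v : #fiber = 1} = 15 |T| + |P|` (`Finset.card_eq_sum_card_image`; `(c,k)` is private iff the fiber of
`(k, r c k)` is `{(c,k)}`; only `#{v | fiber = 1} <= |P|` is needed: `v -> ` its preimage is injective).
(b) with `55 |T| < 4 |nbr|`: `110|T| < 8 |nbr| <= 60 |T| + 4 |P|`, so `25 |T| < 2 |P|`.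
(c) For `c in T` let `u c = #{k | (c,k) private} <= 15`, `g = #{c in T | 13 <= u c}`. `|P| = sum_{c in T} u c <=
12 (|T| - g) + 15 g = 12 |T| + 3 g`, so `25 |T| < 24 |T| + 6 g`, i.e. `|T| < 6 g`.
(d) For `c in T` with `u c >= 13`: `h c` is a non-zero dual word, so at least 3 coordinates `k` have
`h c k != 0`; at most 2 coordinates are not private; so there is `k c` private with `h c (k c) != 0`.
Then `place r h (k c, r c (k c)) = sum over c' with r c' (k c) = r c (k c) of h c' (k c) = h c (k c) != 0` (the
constraints `c' notin T` have `h c' = 0`, the `c' in T` different from `c` do not occur, as `(c, k c)` is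
private). The map `c -> (k c, r c (k c))` is injective on these `c` (again as `(c, k c)` is private). So
`g <= #{v | place r h v != 0}`.
-/

namespace Pool.Agent.Lib.MP_af3183_lc

open Finset

/-- Private incidences. -/
private def lemAPriv {M N : ℕ} (r : Fin M → Fin 15 → Fin N) (T : Finset (Fin M))
    (p : Fin M × Fin 15) : Prop :=
  ∀ c' ∈ T, c' ≠ p.1 → r c' p.2 ≠ r p.1 p.2

open Classical in
private lemma lemA_a {M N : ℕ} (r : Fin M → Fin 15 → Fin N) (T : Finset (Fin M)) :
    2 * (nbr r T).card ≤ 15 * T.card +
      ((T ×ˢ (univ : Finset (Fin 15))).filter fun p => lemAPriv r T p).card := by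
  set S := T ×ˢ (univ : Finset (Fin 15)) with hS
  set P := S.filter fun p => lemAPriv r T p with hP
  let f : Fin M × Fin 15 → Fin 15 × Fin N := fun p => (p.2, r p.1 p.2)
  have hn : nbr r T = S.image f := rfl
  have hSc : S.card = 15 * T.card := by
    rw [hS, card_product]; simp; ring
  have e1 : S.card = ∑ v ∈ S.image f, (S.filter fun p => f p = v).card :=
    card_eq_sum_card_image f S
  have e2 : P.card = ∑ v ∈ S.image f, (P.filter fun p => f p = v).card := by
    apply card_eq_sum_card_fiberwise
    intro p hp
    have : p ∈ S := (mem_filter.1 hp).1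
    exact mem_coe.2 (mem_image_of_mem f this)
  rw [hn, ← hSc, e1, e2, ← sum_add_distrib, mul_comm, ← smul_eq_mul, ← sum_const]
  apply sum_le_sum
  intro v hv
  obtain ⟨p, hpS, hpv⟩ := mem_image.1 hv
  have hpf : p ∈ S.filter fun p => f p = v := mem_filter.2 ⟨hpS, hpv⟩
  by_cases h2 : 2 ≤ (S.filter fun p => f p = v).card
  · omega
  · have h1 : 1 ≤ (S.filter fun p => f p = v).card := card_pos.2 ⟨p, hpf⟩
    have h3 : (S.filter fun p => f p = v).card = 1 := by omega
    obtain ⟨q, hq⟩ := card_eq_one.1 h3
    have hpq : p = q := by rw [hq] at hpf; exact mem_singleton.1 hpf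
    have hpriv : lemAPriv r T p := by
      intro c' hc' hne heq
      have : (c', p.2) ∈ S.filter fun p => f p = v := by
        refine mem_filter.2 ⟨mem_product.2 ⟨hc', mem_univ _⟩, ?_⟩
        rw [← hpv]
        show (p.2, r c' p.2) = (p.2, r p.1 p.2)
        rw [heq]
      rw [hq] at this
      have h4 := mem_singleton.1 this
      rw [← hpq] at h4
      exact hne (congrArg Prod.fst h4)
    have : p ∈ P.filter fun p => f p = v :=
      mem_filter.2 ⟨mem_filter.2 ⟨hpS, hpriv⟩, hpv⟩
    have h5 : 1 ≤ (P.filter fun p => f p = v).card := card_pos.2 ⟨p, this⟩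
    omega

theorem lemA {V : Type} (κ : Fin 15 → V → ZMod 2) (hd : DualDist3 κ) {M N : ℕ}
    (r : Fin M → Fin 15 → Fin N) (s : ℕ) (hr : Expands r s) (h : Fin M → Fin 15 → ZMod 2)
    (hdual : ∀ c, Dual κ (h c)) (h1 : (hsupp h).Nonempty) (h2 : (hsupp h).card ≤ s) :
    (hsupp h).card < 6 * (univ.filter fun v : Fin 15 × Fin N => place r h v ≠ 0).card := by
  classical
  set T := hsupp h with hT
  have hb := hr T h1 h2
  have ha := lemA_a r T
  let u : Fin M → ℕ := fun c => (univ.filter fun k : Fin 15 => lemAPriv r T (c, k)).card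
  have hu15 : ∀ c, u c ≤ 15 := by
    intro c
    calc u c ≤ (univ : Finset (Fin 15)).card := card_le_card (filter_subset _ _)
      _ = 15 := by simp
  set G := T.filter fun c => 13 ≤ u c with hG
  have hPsum : ((T ×ˢ (univ : Finset (Fin 15))).filter fun p => lemAPriv r T p).card
      = ∑ c ∈ T, u c := by
    rw [card_filter, sum_product]
    apply sum_congr rfl
    intro c _
    show _ = (univ.filter fun k : Fin 15 => lemAPriv r T (c, k)).card
    rw [card_filter]
  have hPle : ∑ c ∈ T, u c ≤ 12 * T.card + 3 * G.card := by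
    have e : 12 * T.card + 3 * G.card = ∑ c ∈ T, (12 + if 13 ≤ u c then 3 else 0) := by
      rw [sum_add_distrib, sum_const, hG, card_filter, mul_sum, smul_eq_mul, mul_comm]
      congr 1
      apply sum_congr rfl
      intro c _
      split_ifs <;> rfl
    rw [e]
    apply sum_le_sum
    intro c _
    have := hu15 c
    split_ifs with h13 <;> omega
  have hTG : T.card < 6 * G.card := by
    rw [hPsum] at ha
    omega
  refine lt_of_lt_of_le hTG (Nat.mul_le_mul_left 6 ?_)
  -- the injection
  have hk : ∀ c ∈ G, ∃ k : Fin 15, lemAPriv r T (c, k) ∧ h c k ≠ 0 := by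
    intro c hc
    have hcT : c ∈ T := (mem_filter.1 hc).1
    have hc13 : 13 ≤ u c := (mem_filter.1 hc).2
    have hc0 : h c ≠ 0 := (mem_filter.1 hcT).2
    have h3 := hd (h c) (hdual c) hc0
    by_contra hcon
    have hdis : Disjoint (univ.filter fun k : Fin 15 => lemAPriv r T (c, k))
        (univ.filter fun k => h c k ≠ 0) := by
      rw [disjoint_left]
      intro k hk1 hk2
      exact hcon ⟨k, (mem_filter.1 hk1).2, (mem_filter.1 hk2).2⟩
    have := card_union_of_disjoint hdis
    have hle : ((univ.filter fun k : Fin 15 => lemAPriv r T (c, k)) ∪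
        (univ.filter fun k => h c k ≠ 0)).card ≤ 15 := by
      calc _ ≤ (univ : Finset (Fin 15)).card := card_le_card (subset_univ _)
        _ = 15 := by simp
    have hc13' : 13 ≤ (univ.filter fun k : Fin 15 => lemAPriv r T (c, k)).card := hc13
    omega
  choose! kk hkk using hk
  apply card_le_card_of_injOn (fun c => (kk c, r c (kk c)))
  · intro c hc
    have hc' : c ∈ G := hc
    have hcT : c ∈ T := (mem_filter.1 hc').1
    obtain ⟨hp, hne⟩ := hkk c hc'
    refine mem_coe.2 (mem_filter.2 ⟨mem_univ _, ?_⟩)
    have : place r h (kk c, r c (kk c)) = h c (kk c) := by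
      show (∑ c', if r c' (kk c) = r c (kk c) then h c' (kk c) else 0) = h c (kk c)
      rw [Finset.sum_eq_single c]
      · simp
      · intro c' _ hcc
        by_cases hcT' : c' ∈ T
        · rw [if_neg (hp c' hcT' hcc)]
        · have h0 : h c' = 0 := by
            by_contra h0
            exact hcT' (mem_filter.2 ⟨mem_univ _, h0⟩)
          rw [h0]; simp
      · intro hcon
        exact absurd (mem_univ _) hcon
    rw [this]
    exact hne
  · intro c hc c' hc' heq
    have hcG : c ∈ G := hc
    have hcG' : c' ∈ G := hc'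
    have e1 : kk c = kk c' := congrArg Prod.fst heq
    have e2 : r c (kk c) = r c' (kk c') := congrArg Prod.snd heq
    by_contra hne
    have hp := (hkk c hcG).1 c' (mem_filter.1 hcG').1 (fun e => hne e.symm)
    apply hp
    show r c' (kk c) = r c (kk c)
    rw [e2, e1]

end Pool.Agent.Lib.MP_af3183_lc
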