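import Pool.Agent.Lib.MP_af3183_lc.Ext
import Pool.Agent.Lib.MP_af3183_lc.LemA

/-!
# JOB VCC-PGood: locally good assignments extend

`z : Fin 15 x Fin N -> ZMod 2` is an assignment of all variables. `PGood κ r b k P z`: `z` satisfies all
consequences of at most `90 k` constraints that involve only variables of `P`. Words: `h c` dual for all
`c`, `|hsupp h| <= 90 k`, and `place r h` supported on `nbr r P`; equation `sum_c sum_i h c i * (z (i, r c i) +
b c i) = 0`.

USEFUL IDENTITY (I): `sum_c sum_i h c i * z (i, r c i) = sum_v place r h v * z v` (exchange sums).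
So the equation reads `sum_v place r h v * z v = sum_c sum_i h c i * b c i` (characteristic 2), and depends
only on `z` on `nbr r P`.

(1) `pgood_empty` (needs `90 k <= s`): for `P = empty`, `nbr = empty`, so `place r h = 0`; by `lemA` `hsupp h` is
empty (otherwise `|hsupp h| < 6 * 0`), so `h = 0` and the equation is trivial.
(2) `pgood_extend`: let `P' = insert c P`, `|P'| <= k`. Let `E` be the set of all
`(place r h, sum_c sum_i h c i * b c i)` with `h` dual, `|hsupp h| <= 90 k`, `place r h` supported on `nbr r P'`.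
`E` contains `0` and is closed under addition: for `h, h'` the sum `h + h'` is dual,
`|hsupp (h + h')| <= 180 k <= s`, `place` is additive, so its support lies in `nbr r P'`, which has at most
`15 |P'| <= 15 k` elements (`card_image_le`); if `hsupp (h+h')` is non-empty `lemA` gives
`|hsupp (h + h')| < 6 * 15 k = 90 k`. Apply `extend_solution` with `U = nbr r P`: if `(place r h, ..) in E` is
supported on `nbr r P` then `h` is one of the words of `PGood .. P z`, so the equation holds for `z`. The
resulting `z'` is good for `P'` and agrees with `z` on `nbr r P`.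
(3) `pgood_congr`: only the values on `nbr r P` matter (identity (I)).
(4) `pgood_mono`: `P' <= P` gives `nbr r P' <= nbr r P`, so fewer conditions.
(5) `pgood_mem`: `c in P`, `1 <= k`: for a dual word `h0` take `h = h0` at `c` and `0` elsewhere
(`Function.update 0 c h0` or `Pi.single c h0`); `|hsupp h| <= 1 <= 90 k`, `place r h` is supported on the variables
`(i, r c i)`, which lie in `nbr r P`; so `sum_i h0 i * (z (i, r c i) + b c i) = 0` for all dual `h0`, and
`dual_dual` gives the point `x`.
-/

namespace Pool.Agent.Lib.MP_af3183_lc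

open Finset

/-- See the header. -/
def PGood {V : Type} (κ : Fin 15 → V → ZMod 2) {M N : ℕ} (r : Fin M → Fin 15 → Fin N)
    (b : Fin M → Fin 15 → ZMod 2) (k : ℕ) (P : Finset (Fin M)) (z : Fin 15 × Fin N → ZMod 2) : Prop :=
  ∀ h : Fin M → Fin 15 → ZMod 2, (∀ c, Dual κ (h c)) → (hsupp h).card ≤ 90 * k →
    (∀ v, v ∉ nbr r P → place r h v = 0) → ∑ c, ∑ i, h c i * (z (i, r c i) + b c i) = 0

variable {V : Type} (κ : Fin 15 → V → ZMod 2) {M N : ℕ} (r : Fin M → Fin 15 → Fin N)
  (b : Fin M → Fin 15 → ZMod 2)

private theorem PGood_place_sum {M N : ℕ} (r : Fin M → Fin 15 → Fin N) (h : Fin M → Fin 15 → ZMod 2)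
    (z : Fin 15 × Fin N → ZMod 2) :
    ∑ v, place r h v * z v = ∑ c, ∑ i, h c i * z (i, r c i) := by
  unfold place
  rw [Fintype.sum_prod_type]
  simp only [sum_mul, ite_mul, zero_mul]
  rw [sum_congr rfl fun i _ => sum_comm]
  rw [sum_comm]
  refine sum_congr rfl fun c _ => sum_congr rfl fun i _ => ?_
  rw [sum_ite_eq]
  simp

private theorem PGood_iff {M N : ℕ} (r : Fin M → Fin 15 → Fin N) (b : Fin M → Fin 15 → ZMod 2)
    (h : Fin M → Fin 15 → ZMod 2) (z : Fin 15 × Fin N → ZMod 2) :
    ∑ c, ∑ i, h c i * (z (i, r c i) + b c i) = 0 ↔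
      ∑ v, place r h v * z v = ∑ c, ∑ i, h c i * b c i := by
  rw [PGood_place_sum]
  have e : ∑ c, ∑ i, h c i * (z (i, r c i) + b c i) =
      ∑ c, ∑ i, h c i * z (i, r c i) + ∑ c, ∑ i, h c i * b c i := by
    rw [← sum_add_distrib]
    refine sum_congr rfl fun c _ => ?_
    rw [← sum_add_distrib]
    exact sum_congr rfl fun i _ => mul_add _ _ _
  rw [e]
  exact CharTwo.add_eq_zero

private theorem PGood_place_add {M N : ℕ} (r : Fin M → Fin 15 → Fin N) (h h' : Fin M → Fin 15 → ZMod 2)
    (v : Fin 15 × Fin N) : place r (h + h') v = place r h v + place r h' v := by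
  unfold place
  rw [← sum_add_distrib]
  refine sum_congr rfl fun c _ => ?_
  split_ifs
  · rfl
  · rw [add_zero]

private theorem PGood_nbr_card {M N : ℕ} (r : Fin M → Fin 15 → Fin N) (P : Finset (Fin M)) :
    (nbr r P).card ≤ 15 * P.card := by
  unfold nbr
  refine card_image_le.trans ?_
  rw [card_product]
  simp [mul_comm]

private theorem PGood_hsupp_add {M : ℕ} (h h' : Fin M → Fin 15 → ZMod 2) :
    (hsupp (h + h')).card ≤ (hsupp h).card + (hsupp h').card := by
  classical
  refine (card_le_card ?_).trans (card_union_le _ _)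
  intro c hc
  rw [mem_union]
  simp only [hsupp, mem_filter, mem_univ, true_and] at hc ⊢
  by_contra hcon
  push Not at hcon
  exact hc (by rw [Pi.add_apply, hcon.1, hcon.2, add_zero])

theorem pgood_empty (hd : DualDist3 κ) (s k : ℕ) (hr : Expands r s) (hk : 90 * k ≤ s)
    (z : Fin 15 × Fin N → ZMod 2) : PGood κ r b k ∅ z := by
  intro h hdual hcard hsup
  have hz : ∀ v, place r h v = 0 := fun v => hsup v (by simp [nbr])
  have he : hsupp h = ∅ := by
    by_contra hne
    have h1 : (hsupp h).Nonempty := nonempty_iff_ne_empty.2 hne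
    have h2 := lemA κ hd r s hr h hdual h1 (hcard.trans hk)
    have h3 : (univ.filter fun v : Fin 15 × Fin N => place r h v ≠ 0).card = 0 := by
      rw [card_eq_zero, filter_eq_empty_iff]
      intro v _
      rw [hz v]
      simp
    rw [h3] at h2
    omega
  refine sum_eq_zero fun c _ => sum_eq_zero fun i _ => ?_
  have hc : h c = 0 := by
    by_contra hne
    have : c ∈ hsupp h := by
      unfold hsupp
      exact mem_filter.2 ⟨mem_univ _, hne⟩
    rw [he] at this
    exact absurd this (notMem_empty c)
  rw [hc, Pi.zero_apply, zero_mul]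

theorem pgood_extend (hd : DualDist3 κ) (s k : ℕ) (hr : Expands r s) (hk : 180 * k ≤ s)
    (P : Finset (Fin M)) (c : Fin M) (hP : (insert c P).card ≤ k) (z : Fin 15 × Fin N → ZMod 2)
    (hz : PGood κ r b k P z) :
    ∃ z', PGood κ r b k (insert c P) z' ∧ ∀ v ∈ nbr r P, z' v = z v := by
  classical
  let E : Set ((Fin 15 × Fin N → ZMod 2) × ZMod 2) :=
    {p | ∃ h : Fin M → Fin 15 → ZMod 2, (∀ c, Dual κ (h c)) ∧ (hsupp h).card ≤ 90 * k ∧
      (∀ v, v ∉ nbr r (insert c P) → place r h v = 0) ∧
      p = (place r h, ∑ c, ∑ i, h c i * b c i)}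
  have h0 : (0 : (Fin 15 × Fin N → ZMod 2) × ZMod 2) ∈ E := by
    refine ⟨0, fun c x => by simp, by simp [hsupp], fun v _ => by simp [place], ?_⟩
    ext v
    · simp [place]
    · simp
  have hadd : ∀ p ∈ E, ∀ q ∈ E, p + q ∈ E := by
    rintro _ ⟨h, hdual, hcard, hsup, rfl⟩ _ ⟨h', hdual', hcard', hsup', rfl⟩
    have hD : ∀ c, Dual κ ((h + h') c) := by
      intro c x
      have e : ∑ k, (h + h') c k * κ k x = ∑ k, h c k * κ k x + ∑ k, h' c k * κ k x := by
        rw [← sum_add_distrib]
        exact sum_congr rfl fun i _ => add_mul _ _ _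
      rw [e, hdual c x, hdual' c x, add_zero]
    have hS : ∀ v, v ∉ nbr r (insert c P) → place r (h + h') v = 0 := by
      intro v hv
      rw [PGood_place_add, hsup v hv, hsup' v hv, add_zero]
    refine ⟨h + h', hD, ?_, hS, ?_⟩
    · by_cases hne : (hsupp (h + h')).Nonempty
      · have h1 : (hsupp (h + h')).card ≤ s := by
          have := PGood_hsupp_add h h'
          omega
        have h2 := lemA κ hd r s hr (h + h') hD hne h1
        have h3 : (univ.filter fun v : Fin 15 × Fin N => place r (h + h') v ≠ 0) ⊆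
            nbr r (insert c P) := by
          intro v hv
          by_contra hn
          exact (mem_filter.1 hv).2 (hS v hn)
        have h4 := card_le_card h3
        have h5 := PGood_nbr_card r (insert c P)
        omega
      · rw [not_nonempty_iff_eq_empty.1 hne]
        simp
    · ext v
      · exact (PGood_place_add r h h' v).symm
      · show ∑ c, ∑ i, h c i * b c i + ∑ c, ∑ i, h' c i * b c i =
          ∑ c, ∑ i, (h + h') c i * b c i
        rw [← sum_add_distrib]
        refine sum_congr rfl fun c _ => ?_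
        rw [← sum_add_distrib]
        exact sum_congr rfl fun i _ => (add_mul _ _ _).symm
  obtain ⟨z', h1, h2⟩ := extend_solution E h0 hadd (nbr r P : Set (Fin 15 × Fin N)) z (by
    rintro _ ⟨h, hdual, hcard, hsup, rfl⟩ hU
    exact (PGood_iff r b h z).1 (hz h hdual hcard fun v hv => hU v (fun hc => hv (mem_coe.1 hc))))
  refine ⟨z', ?_, fun v hv => h1 v (mem_coe.2 hv)⟩
  intro h hdual hcard hsup
  exact (PGood_iff r b h z').2 (h2 _ ⟨h, hdual, hcard, hsup, rfl⟩)

theorem pgood_congr (k : ℕ) (P : Finset (Fin M)) (z z' : Fin 15 × Fin N → ZMod 2)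
    (h : ∀ v ∈ nbr r P, z' v = z v) (hz : PGood κ r b k P z) : PGood κ r b k P z' := by
  intro w hdual hcard hsup
  have h1 := (PGood_iff r b w z).1 (hz w hdual hcard hsup)
  refine (PGood_iff r b w z').2 (Eq.trans ?_ h1)
  refine sum_congr rfl fun v _ => ?_
  by_cases hv : v ∈ nbr r P
  · rw [h v hv]
  · rw [hsup v hv, zero_mul, zero_mul]

theorem pgood_mono (k : ℕ) (P P' : Finset (Fin M)) (h : P' ⊆ P) (z : Fin 15 × Fin N → ZMod 2)
    (hz : PGood κ r b k P z) : PGood κ r b k P' z := by
  intro w hdual hcard hsup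
  refine hz w hdual hcard fun v hv => hsup v fun hv' => hv ?_
  unfold nbr at hv' ⊢
  exact image_subset_image (product_subset_product_left h) hv'

theorem pgood_mem [AddCommGroup V] (hκ : ∀ k x y, κ k (x + y) = κ k x + κ k y) (k : ℕ) (hk : 1 ≤ k)
    (P : Finset (Fin M)) (c : Fin M) (hc : c ∈ P) (z : Fin 15 × Fin N → ZMod 2)
    (hz : PGood κ r b k P z) : ∃ x : V, ∀ i, κ i x = z (i, r c i) + b c i := by
  classical
  refine dual_dual κ hκ (fun i => z (i, r c i) + b c i) fun h0 hh0 => ?_
  have h1 := hz (Pi.single c h0) (fun c' => by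
      by_cases hcc : c' = c
      · subst hcc
        rw [Pi.single_eq_same]
        exact hh0
      · rw [Pi.single_eq_of_ne hcc]
        intro x
        simp) (by
      have : hsupp (Pi.single c h0 : Fin M → Fin 15 → ZMod 2) ⊆ {c} := by
        intro c' hc'
        rw [mem_singleton]
        by_contra hne
        exact (mem_filter.1 hc').2 (Pi.single_eq_of_ne hne _)
      have := card_le_card this
      rw [card_singleton] at this
      omega) (fun v hv => by
      unfold place
      refine sum_eq_zero fun c' _ => ?_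
      by_cases hcc : c' = c
      · subst hcc
        rw [if_neg]
        intro heq
        apply hv
        unfold nbr
        refine mem_image.2 ⟨(c', v.1), mem_product.2 ⟨hc, mem_univ _⟩, ?_⟩
        exact Prod.ext rfl heq
      · rw [Pi.single_eq_of_ne hcc]
        simp)
  rw [sum_eq_single c] at h1
  · rw [Pi.single_eq_same] at h1
    exact h1
  · intro c' _ hne
    rw [Pi.single_eq_of_ne hne]
    simp
  · intro hn
    exact absurd (mem_univ c) hn

end Pool.Agent.Lib.MP_af3183_lc
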