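import Pool.Agent.Lib.MP_af3183_lc.Game
import Pool.Agent.Lib.MP_af3183_lc.PGood

/-!
# JOB VCC-Dup: the graphs of `(r, b)` and `(r, 0)` are `C^k`-equivalent

PROOF. If `k = 0` there is no formula (`CForm 0` is empty: induct on the formula) or just use the general
argument where no step needs `k >= 1` except `pgood_mem`, which is applied for `c` in the set of pebbled
constraints only, so then `k >= 1`.

For an assignment `σ : Fin k -> Vtx J M p` let `P σ = {c | exists i F, σ i = inl (c, F)}` (finite; at most `k`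
elements: it is contained in the image of `univ : Finset (Fin k)` under `i -> ` the constraint of `σ i`).
Fix a function `dec : (Fin 15 -> ZMod 2) -> V` with: if `exists x, forall i, κ i x = g i` then `forall i, κ i (dec g) = g i`
(classical choice, `0` otherwise). For `z : Fin 15 x Fin N -> ZMod 2` and `c : Fin M` put
`a z c = dec (fun i => z (i, r c i) + b c i)`, and `phi z : Vtx J M p ≃ Vtx J M p`, `inl (c, j) -> inl (c, sh (a z c) j)`,
`inr q -> inr q` (an `Equiv`, as every `sh a` is one; `Equiv.sumCongr` of a sigma-type map, or build it by hand).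

RELATION `R σ τ`: there is `z` with `PGood κ r b k (P σ) z` and `forall i, τ i = phi z (σ i)`.

`hstart`: given `σ`, a good `z` for `P σ`: by induction over subsets of `P σ` from `pgood_empty` with
`pgood_extend` (`|P σ| <= k`); take `τ = phi z . σ`.
`hstart'`: given `τ`: `P` of `τ` (same definition) is the `P` of every `σ` with `τ = phi z . σ`; take a good `z` and
`σ = (phi z).symm . τ`.
`heq`: `phi z` is injective.
`hadj`: for `σ i = inl (c, j)`, `σ i' = inl (c', j')`, `c, c' in P σ`, so by `pgood_mem` `κ m (a z c) = z (m, r c m) + b c m` for all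
`m`, the same for `c'`. `u != v` is preserved. Conflict: (i) `c = c'`: `pts (sh a j) = (pts j).image (. + a)`, so
disjointness is preserved (same `a`, translation is injective). (ii) a coordinate `m` with `r c m = r c' m`: the
points of `pts (sh (a z c) j)` are `x + a z c`, value in the second graph (shift `0`)
`κ m (x + a z c) + 0 = κ m x + z (m, r c m) + b c m`, and the same for `c'` with the same `z (m, r c m) = z (m, r c' m)`;
so `values different` in the second graph iff `κ m x + b c m != κ m x' + b c' m`. Padding vertices have no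
neighbours and are mapped to themselves.
`hbij`: given `R σ τ` with `z` and `i : Fin k`. Put `P0 = ` the constraints of `σ i'`, `i' != i` (so `P0 <= P σ`,
`|P0| <= k - 1`; `pgood_mono`). For every `c : Fin M` choose by `pgood_extend` a good `z_c` for `insert c P0`, equal
to `z` on `nbr r P0`. The bijection `f`: `inl (c, j) -> inl (c, sh (a z_c c) j)`, `inr q -> inr q`. For a vertex
`v = inl (c, j)`: `P (update σ i v) = insert c P0`, `z_c` is good for it, and `update τ i (f v) i' = phi z_c (update σ i v i')`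
for all `i'`: for `i' = i` by definition; for `i' != i`, `σ i' = inl (c', j')` with `c' in P0`: `a z_c c' = a z c'`
since `z_c = z` on `nbr r P0`, which contains `(m, r c' m)` for all `m`. For `v = inr q`: `P (update σ i v) = P0`, use `z`
itself (`pgood_mono`).
-/

namespace Pool.Agent.Lib.MP_af3183_lc

open Finset

private noncomputable def dupDec {V : Type} [AddCommGroup V] (κ : Fin 15 → V → ZMod 2)
    (g : Fin 15 → ZMod 2) : V := by
  classical
  exact if h : ∃ x, ∀ i, κ i x = g i then h.choose else 0

private theorem dupDec_spec {V : Type} [AddCommGroup V] (κ : Fin 15 → V → ZMod 2)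
    (g : Fin 15 → ZMod 2) (h : ∃ x, ∀ i, κ i x = g i) (i : Fin 15) :
    κ i (dupDec κ g) = g i := by
  unfold dupDec
  rw [dif_pos h]
  exact h.choose_spec i

private noncomputable def dupA {V : Type} [AddCommGroup V] (κ : Fin 15 → V → ZMod 2) {M N : ℕ}
    (r : Fin M → Fin 15 → Fin N) (b : Fin M → Fin 15 → ZMod 2) (z : Fin 15 × Fin N → ZMod 2)
    (c : Fin M) : V := dupDec κ (fun i => z (i, r c i) + b c i)

private def dupPhi {V J : Type} (sh : V → J ≃ J) {M p : ℕ} (a : Fin M → V) :
    Vtx J M p ≃ Vtx J M p :=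
  Equiv.sumCongr (Equiv.prodShear (Equiv.refl (Fin M)) fun c => sh (a c)) (Equiv.refl (Fin p))

private theorem dupPhi_inl {V J : Type} (sh : V → J ≃ J) {M p : ℕ} (a : Fin M → V) (c : Fin M)
    (j : J) : dupPhi (p := p) sh a (Sum.inl (c, j)) = Sum.inl (c, sh (a c) j) := rfl

private theorem dupPhi_inr {V J : Type} (sh : V → J ≃ J) {M p : ℕ} (a : Fin M → V) (q : Fin p) :
    dupPhi (J := J) sh a (Sum.inr q) = Sum.inr q := rfl

private def dupCon {J : Type} {M p : ℕ} (v : Vtx J M p) : Finset (Fin M) :=
  match v with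
  | Sum.inl a => {a.1}
  | Sum.inr _ => ∅

private theorem dupCon_card {J : Type} {M p : ℕ} (v : Vtx J M p) : (dupCon v).card ≤ 1 := by
  rcases v with a | q
  · simp [dupCon]
  · simp [dupCon]

private theorem dupCon_phi {V J : Type} (sh : V → J ≃ J) {M p : ℕ} (a : Fin M → V)
    (v : Vtx J M p) : dupCon (dupPhi sh a v) = dupCon v := by
  rcases v with ⟨c, j⟩ | q
  · rw [dupPhi_inl]; rfl
  · rw [dupPhi_inr]

private theorem dupPhi_congr {V J : Type} (sh : V → J ≃ J) {M p : ℕ} (a a' : Fin M → V)
    (v : Vtx J M p) (h : ∀ c ∈ dupCon v, a c = a' c) : dupPhi sh a v = dupPhi sh a' v := by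
  rcases v with ⟨c, j⟩ | q
  · rw [dupPhi_inl, dupPhi_inl, h c (by simp [dupCon])]
  · rw [dupPhi_inr, dupPhi_inr]

private def dupP {J : Type} {M p k : ℕ} (σ : Fin k → Vtx J M p) : Finset (Fin M) :=
  univ.biUnion fun i => dupCon (σ i)

private theorem dupP_card {J : Type} {M p k : ℕ} (σ : Fin k → Vtx J M p) : (dupP σ).card ≤ k := by
  refine card_biUnion_le.trans ?_
  refine (sum_le_sum fun i _ => dupCon_card (σ i)).trans ?_
  simp

private theorem dupGood {V : Type} (κ : Fin 15 → V → ZMod 2) (hd : DualDist3 κ)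
    {M N : ℕ} (r : Fin M → Fin 15 → Fin N) (b : Fin M → Fin 15 → ZMod 2) (s k : ℕ)
    (hr : Expands r s) (hk : 180 * k ≤ s) (P : Finset (Fin M)) :
    P.card ≤ k → ∃ z, PGood κ r b k P z := by
  classical
  induction P using Finset.induction_on with
  | empty => intro _; exact ⟨0, pgood_empty κ r b hd s k hr (by omega) 0⟩
  | insert c P hc ih =>
    intro hP
    have h1 : P.card ≤ k := (card_le_card (subset_insert c P)).trans hP
    obtain ⟨z, hz⟩ := ih h1
    obtain ⟨z', hz', -⟩ := pgood_extend κ r b hd s k hr hk P c hP z hz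
    exact ⟨z', hz'⟩

private theorem dupConf {V : Type} [AddCommGroup V] [DecidableEq V] (κ : Fin 15 → V → ZMod 2)
    (hκ : ∀ k x y, κ k (x + y) = κ k x + κ k y)
    {M N : ℕ} (r : Fin M → Fin 15 → Fin N) (b : Fin M → Fin 15 → ZMod 2)
    (z : Fin 15 × Fin N → ZMod 2) (A : Fin M → V) (c c' : Fin M) (F F' : Finset V)
    (hc : ∀ m, κ m (A c) = z (m, r c m) + b c m)
    (hc' : ∀ m, κ m (A c') = z (m, r c' m) + b c' m) :
    Conf κ r b c c' F F' ↔
      Conf κ r (fun _ _ => 0) c c' (F.image (· + A c)) (F'.image (· + A c')) := by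
  unfold Conf
  refine or_congr ?_ ?_
  · constructor
    · rintro ⟨rfl, h⟩
      exact ⟨rfl, (Finset.disjoint_image (add_left_injective _)).2 h⟩
    · rintro ⟨rfl, h⟩
      exact ⟨rfl, (Finset.disjoint_image (add_left_injective _)).1 h⟩
  · refine exists_congr fun m => and_congr_right fun hm => ?_
    have key : ∀ x x' : V, (κ m x + b c m ≠ κ m x' + b c' m) ↔
        (κ m (x + A c) + 0 ≠ κ m (x' + A c') + 0) := by
      intro x x'
      rw [add_zero, add_zero, hκ, hκ, hc, hc', hm]
      have e1 : κ m x + (z (m, r c' m) + b c m) = z (m, r c' m) + (κ m x + b c m) := by ring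
      have e2 : κ m x' + (z (m, r c' m) + b c' m) = z (m, r c' m) + (κ m x' + b c' m) := by ring
      rw [e1, e2, ne_eq, ne_eq, add_right_inj]
    constructor
    · intro h y hy y' hy'
      obtain ⟨x, hx, rfl⟩ := mem_image.1 hy
      obtain ⟨x', hx', rfl⟩ := mem_image.1 hy'
      exact (key x x').1 (h x hx x' hx')
    · intro h x hx x' hx'
      exact (key x x').2 (h _ (mem_image_of_mem _ hx) _ (mem_image_of_mem _ hx'))

theorem cequiv_gr {V J : Type} [AddCommGroup V] [DecidableEq V]
    (pts : J → Finset V) (κ : Fin 15 → V → ZMod 2) (hκ : ∀ k x y, κ k (x + y) = κ k x + κ k y)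
    (hd : DualDist3 κ) (sh : V → J ≃ J) (hsh : ∀ a j, pts (sh a j) = (pts j).image (· + a))
    {M N : ℕ} (r : Fin M → Fin 15 → Fin N) (b : Fin M → Fin 15 → ZMod 2) (p s k : ℕ)
    (hr : Expands r s) (hk : 180 * k ≤ s) :
    CEquiv k (gr pts κ r b p) (gr pts κ r (fun _ _ => 0) p) := by
  classical
  have hAz : ∀ (P : Finset (Fin M)) (z : Fin 15 × Fin N → ZMod 2), 1 ≤ k → PGood κ r b k P z →
      ∀ c ∈ P, ∀ m, κ m (dupA κ r b z c) = z (m, r c m) + b c m := by
    intro P z hk1 hz c hc m
    exact dupDec_spec κ _ (pgood_mem κ r b hκ k hk1 P c hc z hz) m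
  refine cequiv_of_bij _ _
    (fun σ τ => ∃ z, PGood κ r b k (dupP σ) z ∧ ∀ i, τ i = dupPhi sh (dupA κ r b z) (σ i))
    ?_ ?_ ?_ ?_ ?_
  · intro σ
    obtain ⟨z, hz⟩ := dupGood κ hd r b s k hr hk (dupP σ) (dupP_card σ)
    exact ⟨fun i => dupPhi sh (dupA κ r b z) (σ i), z, hz, fun i => rfl⟩
  · intro τ
    obtain ⟨z, hz⟩ := dupGood κ hd r b s k hr hk (dupP τ) (dupP_card τ)
    refine ⟨fun i => (dupPhi sh (dupA κ r b z)).symm (τ i), z, ?_, fun i => by simp⟩
    have : dupP (fun i => (dupPhi sh (dupA κ r b z)).symm (τ i)) = dupP τ := by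
      unfold dupP
      refine biUnion_congr rfl fun i _ => ?_
      rw [← dupCon_phi sh (dupA κ r b z), Equiv.apply_symm_apply]
    rw [this]
    exact hz
  · rintro σ τ ⟨z, hz, hτ⟩ i j
    rw [hτ i, hτ j, Equiv.apply_eq_iff_eq]
  · rintro σ τ ⟨z, hz, hτ⟩ i j
    have hk1 : 1 ≤ k := Nat.one_le_iff_ne_zero.2 (by rintro rfl; exact i.elim0)
    have hA := hAz _ z hk1 hz
    rw [hτ i, hτ j]
    have hi : ∀ c ∈ dupCon (σ i), c ∈ dupP σ := fun c hc => mem_biUnion.2 ⟨i, mem_univ _, hc⟩
    have hj : ∀ c ∈ dupCon (σ j), c ∈ dupP σ := fun c hc => mem_biUnion.2 ⟨j, mem_univ _, hc⟩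
    have main : ∀ u v : Vtx J M p, (∀ c ∈ dupCon u, c ∈ dupP σ) → (∀ c ∈ dupCon v, c ∈ dupP σ) →
        ((gr pts κ r b p).Adj u v ↔ (gr pts κ r (fun _ _ => 0) p).Adj
          (dupPhi sh (dupA κ r b z) u) (dupPhi sh (dupA κ r b z) v)) := by
      intro u v hu hv
      rcases u with ⟨c, j⟩ | q
      · rcases v with ⟨c', j'⟩ | q'
        · have h1 := hA c (hu c (by simp [dupCon]))
          have h2 := hA c' (hv c' (by simp [dupCon]))
          have h3 := dupConf κ hκ r b z (dupA κ r b z) c c' (pts j) (pts j') h1 h2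
          constructor
          · rintro ⟨hne, a, a', ha, ha', h⟩
            refine ⟨fun h' => hne ((Equiv.apply_eq_iff_eq _).1 h'), _, _, rfl, rfl, ?_⟩
            obtain rfl := Sum.inl_injective ha
            obtain rfl := Sum.inl_injective ha'
            have h4 := h3.1 h
            show Conf κ r (fun _ _ => 0) c c' (pts (sh (dupA κ r b z c) j))
              (pts (sh (dupA κ r b z c') j'))
            rw [hsh, hsh]
            exact h4
          · rintro ⟨hne, a, a', ha, ha', h⟩
            refine ⟨fun h' => hne (by rw [h']), _, _, rfl, rfl, ?_⟩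
            obtain rfl := Sum.inl_injective ha
            obtain rfl := Sum.inl_injective ha'
            change Conf κ r (fun _ _ => 0) c c' (pts (sh (dupA κ r b z c) j))
              (pts (sh (dupA κ r b z c') j')) at h
            rw [hsh, hsh] at h
            exact h3.2 h
        · constructor
          · rintro ⟨hne, a, a', ha, ha', h⟩; exact absurd ha' (by simp)
          · rintro ⟨hne, a, a', ha, ha', h⟩
            rw [dupPhi_inr] at ha'
            exact absurd ha' (by simp)
      · constructor
        · rintro ⟨hne, a, a', ha, ha', h⟩; exact absurd ha (by simp)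
        · rintro ⟨hne, a, a', ha, ha', h⟩
          rw [dupPhi_inr] at ha
          exact absurd ha (by simp)
    exact main _ _ hi hj
  · rintro σ τ ⟨z, hz, hτ⟩ i
    have hk1 : 1 ≤ k := Nat.one_le_iff_ne_zero.2 (by rintro rfl; exact i.elim0)
    set P0 : Finset (Fin M) := (univ.erase i).biUnion fun i' => dupCon (σ i') with hP0
    have hP0s : P0 ⊆ dupP σ := biUnion_subset_biUnion_of_subset_left _ (subset_univ _)
    have hz0 : PGood κ r b k P0 z := pgood_mono κ r b k _ _ hP0s z hz
    have hP0c : P0.card ≤ k - 1 := by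
      refine card_biUnion_le.trans ?_
      refine (sum_le_sum fun i _ => dupCon_card (σ i)).trans ?_
      simp
    have hins : ∀ c, (insert c P0).card ≤ k := by
      intro c
      have := card_insert_le c P0
      omega
    have hex : ∀ c, ∃ z', PGood κ r b k (insert c P0) z' ∧ ∀ v ∈ nbr r P0, z' v = z v :=
      fun c => pgood_extend κ r b hd s k hr hk P0 c (hins c) z hz0
    choose zc hzc1 hzc2 using hex
    have hAeq : ∀ c, ∀ c' ∈ P0, dupA κ r b z c' = dupA κ r b (zc c) c' := by
      intro c c' hc'
      unfold dupA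
      congr 1
      funext m
      rw [hzc2 c (m, r c' m) (mem_image.2 ⟨(c', m), by simp [hc'], rfl⟩)]
    have hsub : ∀ v, dupP (Function.update σ i v) ⊆ dupCon v ∪ P0 := by
      intro v c hc
      obtain ⟨i', -, hi'⟩ := mem_biUnion.1 hc
      by_cases h : i' = i
      · subst h
        rw [Function.update_self] at hi'
        exact mem_union_left _ hi'
      · rw [Function.update_of_ne h] at hi'
        exact mem_union_right _ (mem_biUnion.2 ⟨i', by simp [h], hi'⟩)
    have hconP0 : ∀ i', i' ≠ i → ∀ c ∈ dupCon (σ i'), c ∈ P0 := fun i' hi' c hc =>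
      mem_biUnion.2 ⟨i', by simp [hi'], hc⟩
    refine ⟨dupPhi sh (fun c => dupA κ r b (zc c) c), fun v => ?_⟩
    rcases v with ⟨c, j⟩ | q
    · refine ⟨zc c, pgood_mono κ r b k _ _ (hsub _) _ (by simpa [dupCon] using hzc1 c), fun i' => ?_⟩
      by_cases h : i' = i
      · subst h
        rw [Function.update_self, Function.update_self]
        rfl
      · rw [Function.update_of_ne h, Function.update_of_ne h, hτ i']
        exact dupPhi_congr sh _ _ _ fun c' hc' => hAeq c c' (hconP0 i' h c' hc')
    · refine ⟨z, pgood_mono κ r b k _ _ (hsub _) _ (by simpa [dupCon] using hz0), fun i' => ?_⟩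
      by_cases h : i' = i
      · subst h
        rw [Function.update_self, Function.update_self]
        rfl
      · rw [Function.update_of_ne h, Function.update_of_ne h, hτ i']

end Pool.Agent.Lib.MP_af3183_lc
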