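import Pool.Agent.Lib.MP_af3183_lc.Core

/-!
# JOB VCC-ExpCount: first moment bound for non-expanding systems

STATEMENT. If `sum_{t=1}^{s} C(M,t) * C(15N, u t) * (u t)^(15 t) / N^(15 t) < 1` (real numbers) and `u t <= 15 N`
for `1 <= t <= s`, there is `r : Fin M -> Fin 15 -> Fin N` such that `u |T| < |nbr r T|` for all non-empty `T`,
`|T| <= s`.

PROOF. Count the bad `r`. If `r` is bad for `T`, `|T| = t`, then `|nbr r T| <= u t <= 15 N = |Fin 15 x Fin N|`, so there
is `U` with `nbr r T <= U`, `|U| = u t` (`Finset.exists_superset_card_eq` or `Finset.exists_subsuperset_card_eq`).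
For fixed `T, U` the number of `r` with `nbr r T <= U` is at most `(u t)^(15 t) * N^(15 (M - t))`: the set of these `r`
is contained in `Fintype.piFinset (fun c => if c in T then A else univ)`, `A = {ρ : Fin 15 -> Fin N | forall k, (k, ρ k) in U}`,
`|A| <= |U|^15` (`A` injects into `Fin 15 -> U` by `ρ -> (k -> (k, ρ k))`), `|univ| = N^15`. So the number of bad `r` is
at most `sum_{t=1}^{s} C(M,t) C(15N,u t) (u t)^(15 t) N^(15 (M - t))` (for `t > M` there is no `T`, `C(M,t) = 0`), which
is `< N^(15 M)` = the number of all `r` by the hypothesis times `N^(15 M)` (`N >= 1`). Hence some `r` is not bad.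
-/

namespace Pool.Agent.Lib.MP_af3183_lc

open Finset

private theorem expCount_fix (M N : ℕ) (T : Finset (Fin M)) (U : Finset (Fin 15 × Fin N)) :
    ((univ : Finset (Fin M → Fin 15 → Fin N)).filter fun r => nbr r T ⊆ U).card ≤
      U.card ^ (15 * T.card) * N ^ (15 * (M - T.card)) := by
  classical
  set A : Finset (Fin 15 → Fin N) := univ.filter fun ρ => ∀ k, (k, ρ k) ∈ U with hA
  have hAc : A.card ≤ U.card ^ 15 := by
    have h1 : A.card ≤ (Fintype.piFinset (fun _ : Fin 15 => U)).card := by
      refine card_le_card_of_injOn (fun ρ k => (k, ρ k)) ?_ ?_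
      · intro ρ hρ
        have hρ' : ∀ k, (k, ρ k) ∈ U := by simpa [hA] using hρ
        simpa [Fintype.mem_piFinset] using hρ'
      · intro ρ _ ρ' _ h
        funext k
        have h2 := congrFun h k
        simpa using h2
    simpa using h1
  have hsub : ((univ : Finset (Fin M → Fin 15 → Fin N)).filter fun r => nbr r T ⊆ U) ⊆
      Fintype.piFinset (fun c => if c ∈ T then A else univ) := by
    intro r hr
    rw [mem_filter] at hr
    rw [Fintype.mem_piFinset]
    intro c
    by_cases hc : c ∈ T
    · rw [if_pos hc, hA, mem_filter]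
      refine ⟨mem_univ _, fun k => hr.2 ?_⟩
      unfold nbr
      rw [mem_image]
      exact ⟨(c, k), by simp [hc], rfl⟩
    · rw [if_neg hc]
      exact mem_univ _
  refine (card_le_card hsub).trans ?_
  rw [Fintype.card_piFinset]
  have h3 : ∀ c : Fin M, (if c ∈ T then A else (univ : Finset (Fin 15 → Fin N))).card =
      if c ∈ T then A.card else N ^ 15 := by
    intro c
    split_ifs
    · rfl
    · simp
  rw [Finset.prod_congr rfl (fun c _ => h3 c), Finset.prod_ite, Finset.prod_const,
    Finset.prod_const]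
  have h4 : ((univ : Finset (Fin M)).filter fun c => c ∈ T).card = T.card := by
    congr 1
    ext c
    simp
  have h5 : ((univ : Finset (Fin M)).filter fun c => c ∉ T).card = M - T.card := by
    have h6 : ((univ : Finset (Fin M)).filter fun c => c ∉ T) = Tᶜ := by
      ext c
      simp
    rw [h6, card_compl, Fintype.card_fin]
  rw [h4, h5, ← pow_mul]
  refine Nat.mul_le_mul ?_ (le_refl _)
  calc A.card ^ T.card ≤ (U.card ^ 15) ^ T.card := Nat.pow_le_pow_left hAc _
    _ = U.card ^ (15 * T.card) := by rw [← pow_mul]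

theorem exp_count (M N s : ℕ) (hN : 1 ≤ N) (u : ℕ → ℕ) (hu : ∀ t, 1 ≤ t → t ≤ s → u t ≤ 15 * N)
    (hsum : ∑ t ∈ Icc 1 s, ((M.choose t : ℝ) * ((15 * N).choose (u t) : ℝ) * (u t : ℝ) ^ (15 * t)
      / (N : ℝ) ^ (15 * t)) < 1) :
    ∃ r : Fin M → Fin 15 → Fin N, ∀ T : Finset (Fin M), T.Nonempty → T.card ≤ s →
      u T.card < (nbr r T).card := by
  classical
  by_contra hcon
  push Not at hcon
  have hNr : (0 : ℝ) < N := by exact_mod_cast hN
  -- the bad sets
  set B : ℕ → Finset (Fin M → Fin 15 → Fin N) := fun t =>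
    (powersetCard t (univ : Finset (Fin M))).biUnion fun T =>
      (powersetCard (u t) (univ : Finset (Fin 15 × Fin N))).biUnion fun U =>
        (univ : Finset (Fin M → Fin 15 → Fin N)).filter fun r => nbr r T ⊆ U with hB
  have hcov : (univ : Finset (Fin M → Fin 15 → Fin N)) ⊆ (Icc 1 s).biUnion B := by
    intro r _
    obtain ⟨T, hT, hTs, hle⟩ := hcon r
    have ht1 : 1 ≤ T.card := hT.card_pos
    have hcard : (univ : Finset (Fin 15 × Fin N)).card = 15 * N := by simp
    obtain ⟨U, hU1, hU2, hU3⟩ := Finset.exists_subsuperset_card_eq (subset_univ (nbr r T)) hle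
      (by rw [hcard]; exact hu _ ht1 hTs)
    rw [mem_biUnion]
    refine ⟨T.card, mem_Icc.mpr ⟨ht1, hTs⟩, ?_⟩
    simp only [hB, mem_biUnion]
    exact ⟨T, mem_powersetCard.mpr ⟨subset_univ _, rfl⟩, U,
      mem_powersetCard.mpr ⟨subset_univ _, hU3⟩, mem_filter.mpr ⟨mem_univ _, hU1⟩⟩
  have hBc : ∀ t, (B t).card ≤
      M.choose t * ((15 * N).choose (u t) * (u t ^ (15 * t) * N ^ (15 * (M - t)))) := by
    intro t
    have e1 : (powersetCard t (univ : Finset (Fin M))).card = M.choose t := by simp
    have e2 : (powersetCard (u t) (univ : Finset (Fin 15 × Fin N))).card =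
        (15 * N).choose (u t) := by simp
    refine (card_biUnion_le_card_mul _ _ _ fun T hT => ?_).trans (le_of_eq (by rw [e1]))
    refine (card_biUnion_le_card_mul _ _ _ fun U hU => ?_).trans (le_of_eq (by rw [e2]))
    have hT' := (mem_powersetCard.mp hT).2
    have hU' := (mem_powersetCard.mp hU).2
    have := expCount_fix M N T U
    rw [hT', hU'] at this
    exact this
  have htot : ((N ^ (15 * M) : ℕ) : ℝ) ≤ ∑ t ∈ Icc 1 s,
      ((M.choose t : ℝ) * ((15 * N).choose (u t) : ℝ) * (u t : ℝ) ^ (15 * t)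
      / (N : ℝ) ^ (15 * t)) * (N : ℝ) ^ (15 * M) := by
    have h1 : N ^ (15 * M) ≤ ∑ t ∈ Icc 1 s, (B t).card := by
      have h2 := (card_le_card hcov).trans card_biUnion_le
      have h3 : (univ : Finset (Fin M → Fin 15 → Fin N)).card = N ^ (15 * M) := by
        simp [pow_mul]
      rwa [h3] at h2
    calc ((N ^ (15 * M) : ℕ) : ℝ) ≤ ((∑ t ∈ Icc 1 s, (B t).card : ℕ) : ℝ) := by exact_mod_cast h1
      _ = ∑ t ∈ Icc 1 s, ((B t).card : ℝ) := by push_cast; rfl
      _ ≤ _ := by
        refine sum_le_sum fun t _ => ?_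
        by_cases htM : t ≤ M
        · have h4 : ((B t).card : ℝ) ≤ ((M.choose t * ((15 * N).choose (u t) *
              (u t ^ (15 * t) * N ^ (15 * (M - t)))) : ℕ) : ℝ) := by exact_mod_cast hBc t
          refine h4.trans (le_of_eq ?_)
          have h5 : (N : ℝ) ^ (15 * M) = (N : ℝ) ^ (15 * t) * (N : ℝ) ^ (15 * (M - t)) := by
            rw [← pow_add]
            congr 1
            omega
          rw [h5]
          push_cast
          field_simp
        · have h6 : (B t).card = 0 := by
            have h7 := hBc t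
            rw [Nat.choose_eq_zero_of_lt (by omega), Nat.zero_mul] at h7
            omega
          rw [h6]
          have h8 : (0 : ℝ) ≤ ((M.choose t : ℝ) * ((15 * N).choose (u t) : ℝ) *
              (u t : ℝ) ^ (15 * t) / (N : ℝ) ^ (15 * t)) * (N : ℝ) ^ (15 * M) := by positivity
          simpa using h8
  rw [← sum_mul] at htot
  have hpos : (0 : ℝ) < (N : ℝ) ^ (15 * M) := by positivity
  push_cast at htot
  have := mul_lt_mul_of_pos_right hsum hpos
  linarith

end Pool.Agent.Lib.MP_af3183_lc
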