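import Pool.Agent.Lib.MP_af3183_lc.ExpCount

/-!
# JOB VCC-Expander: existence of the expanding system

`exp_count` gives, for every threshold function `u : ℕ -> ℕ` with `u t <= 15 N`: if
`sum_{t=1}^{s} C(M,t) C(15N,u t) (u t)^{15 t} / N^{15 t} < 1`, there is `r` such that every non-empty `T` with
`|T| <= s` has `|nbr r T| > u |T|`.

STATEMENT `exists_expander`: for every `Δ` there is `γ > 0` such that for all `N >= 1` there is
`r : Fin (Δ N) -> Fin 15 -> Fin N` with `Expands r ⌊γ N⌋`.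

PROOF. `M = Δ N`, `D = Δ + 1`, `s = ⌊γ N⌋`, `u t = 55 t / 4` (natural division); `55 t < 4 (u t + 1)`, so
`|nbr| > u t` gives `55 t < 4 |nbr|`. For `1 <= t <= γ N`, `γ <= 1`: `t <= N`, `t <= u t <= 14 t`, and `4 (14 t - u t) >= t`
(as `4 u t <= 55 t`). Bounds (real numbers): `C(n,k) <= (3 n / k)^k`. So the term is at most
`(3 M / t)^t (45 N / u)^u (u / N)^{15 t} = (3 Δ)^t 45^u (N/t)^t (u/N)^{15 t - u}`
`<= (3 D)^t 45^{14 t} (N/t)^t (14 t / N)^{15 t - u} <= B^t (t/N)^{14 t - u}` with `B = 3 D 45^14 14^15`.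
Take `β = 1 / (4 B)` (`<= 1`), `γ = β^4`: `t/N <= γ = β^4`, so `(t/N)^{14 t - u} <= β^{4 (14 t - u)} <= β^t`. So the
term is `<= (B β)^t = (1/4)^t` and the sum over `t >= 1` is `<= 1/3 < 1`.
-/

namespace Pool.Agent.Lib.MP_af3183_lc

open Finset

private theorem ex_choose_le (n : ℕ) {k : ℕ} (hk : 1 ≤ k) :
    (n.choose k : ℝ) ≤ (3 * n / k) ^ k := by
  have hk0 : (0 : ℝ) < k := by exact_mod_cast hk
  have hf : (0 : ℝ) < (k.factorial : ℝ) := by exact_mod_cast k.factorial_pos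
  have h1 : (k : ℝ) ^ k / (k.factorial : ℝ) ≤ 3 ^ k := by
    refine (Real.pow_div_factorial_le_exp (k : ℝ) hk0.le k).trans ?_
    rw [← Real.exp_one_pow]
    exact pow_le_pow_left₀ (Real.exp_pos 1).le (by linarith [Real.exp_one_lt_d9]) k
  have h2 : (n.choose k : ℝ) ≤ (n : ℝ) ^ k / (k.factorial : ℝ) := Nat.choose_le_pow_div k n
  refine h2.trans ?_
  rw [div_pow, mul_pow]
  rw [div_le_div_iff₀ hf (pow_pos hk0 k)]
  rw [div_le_iff₀ hf] at h1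
  have h3 : (0 : ℝ) ≤ (n : ℝ) ^ k := by positivity
  nlinarith [mul_le_mul_of_nonneg_left h1 h3]

private theorem ex_term (D : ℝ) (hD : 1 ≤ D) (Δ N t : ℕ) (hΔ : (Δ : ℝ) ≤ D) (hN : 1 ≤ N)
    (ht : 1 ≤ t) (β : ℝ) (hβ : 0 < β) (hβ1 : β ≤ 1) (hx : (t : ℝ) / N ≤ β ^ 4) :
    ((Δ * N).choose t : ℝ) * ((15 * N).choose (55 * t / 4) : ℝ) *
      ((55 * t / 4 : ℕ) : ℝ) ^ (15 * t) / (N : ℝ) ^ (15 * t) ≤
      ((3 * D * 45 ^ 14 * 14 ^ 15) * β) ^ t := by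
  obtain ⟨u, hu⟩ : ∃ u, u = 55 * t / 4 := ⟨_, rfl⟩
  rw [← hu]
  have hu1 : t ≤ u := by omega
  have hu2 : u ≤ 14 * t := by omega
  have hu3 : t ≤ 4 * (14 * t - u) := by omega
  have hN0 : (0 : ℝ) < N := by exact_mod_cast hN
  have ht0 : (0 : ℝ) < t := by exact_mod_cast ht
  have hu0 : (0 : ℝ) < u := by exact_mod_cast (lt_of_lt_of_le ht hu1)
  have hxp : 0 < (t : ℝ) / N := div_pos ht0 hN0
  have hD0 : 0 < D := by linarith
  -- first factor
  have h1 : ((Δ * N).choose t : ℝ) ≤ (3 * D) ^ t * ((t : ℝ) / N)⁻¹ ^ t := by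
    refine (ex_choose_le _ ht).trans ?_
    rw [← mul_pow]
    refine pow_le_pow_left₀ (by positivity) ?_ t
    rw [inv_div]
    push_cast
    rw [mul_div_assoc', mul_assoc 3 D]
    refine (div_le_div_iff_of_pos_right ht0).2 ?_
    have := mul_le_mul_of_nonneg_right hΔ hN0.le
    linarith
  -- second factor
  have h2 : ((15 * N).choose u : ℝ) * ((u : ℝ) ^ (15 * t) / (N : ℝ) ^ (15 * t)) ≤
      45 ^ (14 * t) * 14 ^ (15 * t) * ((t : ℝ) / N) ^ (15 * t - u) := by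
    have a1 : ((15 * N).choose u : ℝ) ≤ (45 * ((u : ℝ) / N)⁻¹) ^ u := by
      refine (ex_choose_le _ (le_trans ht hu1)).trans (le_of_eq ?_)
      rw [inv_div]
      push_cast
      congr 1
      ring
    have hup : 0 < (u : ℝ) / N := div_pos hu0 hN0
    have a2 : (u : ℝ) ^ (15 * t) / (N : ℝ) ^ (15 * t) =
        ((u : ℝ) / N) ^ u * ((u : ℝ) / N) ^ (15 * t - u) := by
      rw [← div_pow, ← pow_add]
      congr 1
      omega
    rw [a2]
    have a3 : (45 * ((u : ℝ) / N)⁻¹) ^ u * (((u : ℝ) / N) ^ u * ((u : ℝ) / N) ^ (15 * t - u)) =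
        45 ^ u * ((u : ℝ) / N) ^ (15 * t - u) := by
      rw [mul_pow, inv_pow]
      have : ((u : ℝ) / N) ^ u ≠ 0 := (pow_pos hup u).ne'
      field_simp
    refine (mul_le_mul_of_nonneg_right a1 (by positivity)).trans ?_
    rw [a3]
    have a4 : ((u : ℝ) / N) ^ (15 * t - u) ≤ 14 ^ (15 * t) * ((t : ℝ) / N) ^ (15 * t - u) := by
      have b1 : (u : ℝ) / N ≤ 14 * ((t : ℝ) / N) := by
        rw [mul_div_assoc']
        refine (div_le_div_iff_of_pos_right hN0).2 ?_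
        exact_mod_cast hu2
      refine (pow_le_pow_left₀ hup.le b1 _).trans ?_
      rw [mul_pow]
      refine mul_le_mul_of_nonneg_right ?_ (by positivity)
      exact pow_le_pow_right₀ (by norm_num) (Nat.sub_le _ _)
    have a5 : (45 : ℝ) ^ u ≤ 45 ^ (14 * t) := pow_le_pow_right₀ (by norm_num) hu2
    calc (45 : ℝ) ^ u * ((u : ℝ) / N) ^ (15 * t - u)
        ≤ 45 ^ (14 * t) * (14 ^ (15 * t) * ((t : ℝ) / N) ^ (15 * t - u)) :=
          mul_le_mul a5 a4 (by positivity) (by positivity)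
      _ = _ := by ring
  -- together
  have h3 : ((t : ℝ) / N)⁻¹ ^ t * ((t : ℝ) / N) ^ (15 * t - u) = ((t : ℝ) / N) ^ (14 * t - u) := by
    have e : 15 * t - u = t + (14 * t - u) := by omega
    rw [e, pow_add, ← mul_assoc, ← mul_pow, inv_mul_cancel₀ hxp.ne', one_pow, one_mul]
  have h4 : ((t : ℝ) / N) ^ (14 * t - u) ≤ β ^ t := by
    refine (pow_le_pow_left₀ hxp.le hx _).trans ?_
    rw [← pow_mul]
    exact pow_le_pow_of_le_one hβ.le hβ1 hu3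
  calc ((Δ * N).choose t : ℝ) * ((15 * N).choose u : ℝ) * (u : ℝ) ^ (15 * t) / (N : ℝ) ^ (15 * t)
      = ((Δ * N).choose t : ℝ) *
        (((15 * N).choose u : ℝ) * ((u : ℝ) ^ (15 * t) / (N : ℝ) ^ (15 * t))) := by ring
    _ ≤ ((3 * D) ^ t * ((t : ℝ) / N)⁻¹ ^ t) *
        (45 ^ (14 * t) * 14 ^ (15 * t) * ((t : ℝ) / N) ^ (15 * t - u)) :=
        mul_le_mul h1 h2 (by positivity) (by positivity)
    _ = ((3 * D) ^ t * 45 ^ (14 * t) * 14 ^ (15 * t)) *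
        (((t : ℝ) / N)⁻¹ ^ t * ((t : ℝ) / N) ^ (15 * t - u)) := by ring
    _ = ((3 * D) ^ t * 45 ^ (14 * t) * 14 ^ (15 * t)) * ((t : ℝ) / N) ^ (14 * t - u) := by rw [h3]
    _ ≤ ((3 * D) ^ t * 45 ^ (14 * t) * 14 ^ (15 * t)) * β ^ t :=
        mul_le_mul_of_nonneg_left h4 (by positivity)
    _ = _ := by
        rw [pow_mul 45 14 t, pow_mul 14 15 t, ← mul_pow, ← mul_pow, ← mul_pow]

private theorem ex_geo (s : ℕ) : ∑ t ∈ Icc 1 s, ((1 : ℝ) / 4) ^ t < 1 := by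
  have h : ∀ s : ℕ, ∑ t ∈ Icc 1 s, ((1 : ℝ) / 4) ^ t = (1 - (1 / 4) ^ s) / 3 := by
    intro s
    induction s with
    | zero => simp
    | succ n ih =>
      rw [Finset.sum_Icc_succ_top (by omega), ih, pow_succ]
      ring
  rw [h]
  have : (0 : ℝ) < (1 / 4) ^ s := by positivity
  linarith

theorem exists_expander (Δ : ℕ) : ∃ γ : ℝ, 0 < γ ∧ ∀ N : ℕ, 1 ≤ N →
    ∃ r : Fin (Δ * N) → Fin 15 → Fin N, Expands r ⌊γ * N⌋₊ := by
  obtain ⟨D, hDdef⟩ : ∃ D : ℝ, D = Δ + 1 := ⟨_, rfl⟩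
  have hD : 1 ≤ D := by
    rw [hDdef]
    have : (0 : ℝ) ≤ Δ := Nat.cast_nonneg _
    linarith
  have hΔ : (Δ : ℝ) ≤ D := by
    rw [hDdef]
    linarith
  obtain ⟨B, hBdef⟩ : ∃ B : ℝ, B = 3 * D * 45 ^ 14 * 14 ^ 15 := ⟨_, rfl⟩
  have hB : 1 ≤ B := by
    rw [hBdef]
    nlinarith
  obtain ⟨β, hβdef⟩ : ∃ β : ℝ, β = 1 / (4 * B) := ⟨_, rfl⟩
  have hβ : 0 < β := by
    rw [hβdef]
    positivity
  have hβ1 : β ≤ 1 := by
    rw [hβdef, div_le_one (by positivity)]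
    linarith
  have hBβ : B * β = 1 / 4 := by
    rw [hβdef]
    have : B ≠ 0 := by positivity
    field_simp
  refine ⟨β ^ 4, by positivity, fun N hN => ?_⟩
  have hN0 : (0 : ℝ) < N := by exact_mod_cast hN
  have hts : ∀ t : ℕ, t ≤ ⌊β ^ 4 * N⌋₊ → (t : ℝ) / N ≤ β ^ 4 := by
    intro t ht
    rw [div_le_iff₀ hN0]
    exact (Nat.le_floor_iff (by positivity)).1 ht
  have htN : ∀ t : ℕ, t ≤ ⌊β ^ 4 * N⌋₊ → t ≤ N := by
    intro t ht
    have h1 := hts t ht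
    have h2 : β ^ 4 ≤ 1 := pow_le_one₀ hβ.le hβ1
    have h3 : (t : ℝ) / N ≤ 1 := h1.trans h2
    rw [div_le_one hN0] at h3
    exact_mod_cast h3
  obtain ⟨r, hr⟩ := exp_count (Δ * N) N ⌊β ^ 4 * N⌋₊ hN (fun t => 55 * t / 4)
    (fun t _ ht => by
      have := htN t ht
      show 55 * t / 4 ≤ 15 * N
      omega)
    (by
      refine lt_of_le_of_lt (Finset.sum_le_sum fun t ht => ?_) (ex_geo ⌊β ^ 4 * N⌋₊)
      rw [Finset.mem_Icc] at ht
      have := ex_term D hD Δ N t hΔ hN ht.1 β hβ hβ1 (hts t ht.2)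
      rw [← hBdef, hBβ] at this
      exact this)
  refine ⟨r, fun T hT hTs => ?_⟩
  have := hr T hT hTs
  have h2 : 55 * T.card / 4 < (nbr r T).card := this
  omega

end Pool.Agent.Lib.MP_af3183_lc
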