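import Pool.Agent.Lib.MP_af3183_lc.Core

/-!
# JOB VCC-Ext: two pieces of linear algebra over `F_2`

(1) `extend_solution`. `E` is a set of linear equations `sum_x p.1 x * z x = p.2`, closed under addition.
`z` satisfies all equations of `E` whose coefficients are supported in `U`. Then the values of `z` on `U`
extend to a solution `z'` of all of `E`.
PROOF. Let `X` be the (finite) index type, `W = (X -> ZMod 2) x ZMod 2`, a vector space over the field
`ZMod 2` (`Fact (Nat.Prime 2)` gives the `Field` instance `ZMod.instField`). Let `S` be the submodule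
spanned by `E` and the vectors `(Pi.single x 1, z x)`, `x in U`. CLAIM `(0, 1) notin S`. An element of `S` is
`p + sum_{x in A} (single x 1, z x)` with `p in E` (as `E` is closed under addition and contains `0`) and
`A` a finite subset of `U`: show that the set of all `(f, c)` such that there are `p in E` and
`g : X -> ZMod 2` supported in `U` with `(f, c) = p + (g, sum_x g x * z x)` is closed under addition (and so a
submodule, scalars are `0`, `1`; or use `AddSubgroup.toZModSubmodule 2`) and take this set as `S` directly.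
If `(0,1) = p + (g, sum g z)`, then `p.1 = g` (characteristic 2) is supported in `U`, so by `hz`
`sum p.1 z = p.2`, so `1 = p.2 + sum g z = 2 p.2 = 0`, contradiction. By duality
(`Submodule.exists_le_ker_of_lt_top`, or `Submodule.exists_dual_map_eq_bot_of_notMem` /
`Module.forall_dual_apply_eq_zero_iff` in the quotient) there is a linear form `phi` on `W`, zero on `S`, with
`phi (0,1) != 0`, hence `= 1`. Put `z' x := phi (Pi.single x 1, 0)`. Then `phi (f, c) = sum_x f x * z' x + c`.
On `E`: `0 = sum p.1 z' + p.2`, so `sum p.1 z' = p.2`. For `x in U`: `0 = z' x + z x`.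

(2) `dual_dual`: a word orthogonal to all dual words is a word `(kap k x)_k`.
PROOF. The set `R = {(kap k x)_k | x in V}` is closed under addition (by `hkap`) and contains `0`
(`kap k 0 = 0` as `kap k (0+0) = 2 * kap k 0`), so it is a subspace of `Fin 15 -> ZMod 2`. If `g notin R` there
is a linear form `phi` zero on `R` with `phi g != 0`; `phi u = sum_k h k * u k` with `h k = phi (single k 1)`;
`h` is dual (`phi = 0` on `R`) and `sum_k h k * g k != 0`, contradiction.
-/

namespace Pool.Agent.Lib.MP_af3183_lc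

open Finset

private theorem z2 (c : ZMod 2) : c + c = 0 := CharTwo.add_self_eq_zero c

private theorem z2c (c : ZMod 2) : c = 0 ∨ c = 1 := by
  revert c
  decide

/-- a set that contains zero and is closed under addition is a subspace -/
private def sub2 {W : Type} [AddCommGroup W] [Module (ZMod 2) W] (S : Set W) (h0 : (0 : W) ∈ S)
    (hadd : ∀ p ∈ S, ∀ q ∈ S, p + q ∈ S) : Submodule (ZMod 2) W where
  carrier := S
  zero_mem' := h0
  add_mem' := fun {a b} ha hb => hadd a ha b hb
  smul_mem' := by
    intro c x hx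
    rcases z2c c with rfl | rfl
    · rw [zero_smul]
      exact h0
    · rw [one_smul]
      exact hx

private theorem lin_expand {X : Type} [Fintype X] [DecidableEq X] {W : Type} [AddCommGroup W]
    [Module (ZMod 2) W] (φ : (X → ZMod 2) →ₗ[ZMod 2] W) (f : X → ZMod 2) :
    φ f = ∑ x, f x • φ (Pi.single x 1) := by
  have h : f = ∑ x, f x • (Pi.single x (1 : ZMod 2) : X → ZMod 2) := by
    funext y
    rw [Finset.sum_apply]
    rw [Finset.sum_eq_single y]
    · simp
    · intro b _ hb
      simp [Ne.symm hb]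
    · intro h
      exact absurd (mem_univ y) h
  conv_lhs => rw [h]
  rw [map_sum]
  exact Finset.sum_congr rfl fun x _ => map_smul φ _ _

theorem extend_solution {X : Type} [Fintype X] (E : Set ((X → ZMod 2) × ZMod 2))
    (h0 : (0 : (X → ZMod 2) × ZMod 2) ∈ E) (hadd : ∀ p ∈ E, ∀ q ∈ E, p + q ∈ E)
    (U : Set X) (z : X → ZMod 2)
    (hz : ∀ p ∈ E, (∀ x, x ∉ U → p.1 x = 0) → ∑ x, p.1 x * z x = p.2) :
    ∃ z' : X → ZMod 2, (∀ x ∈ U, z' x = z x) ∧ ∀ p ∈ E, ∑ x, p.1 x * z' x = p.2 := by
  classical
  have : Fact (Nat.Prime 2) := ⟨Nat.prime_two⟩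
  let S : Submodule (ZMod 2) ((X → ZMod 2) × ZMod 2) :=
    sub2 {w | ∃ p ∈ E, ∃ g : X → ZMod 2, (∀ x, x ∉ U → g x = 0) ∧ w = p + (g, ∑ x, g x * z x)}
      ⟨0, h0, 0, fun _ _ => rfl, by simp; rfl⟩
      (by
        rintro _ ⟨p, hp, g, hg, rfl⟩ _ ⟨p', hp', g', hg', rfl⟩
        refine ⟨p + p', hadd p hp p' hp', g + g', fun x hx => ?_, ?_⟩
        · rw [Pi.add_apply, hg x hx, hg' x hx, add_zero]
        · have e : ∑ x, (g + g') x * z x = ∑ x, g x * z x + ∑ x, g' x * z x := by
            rw [← Finset.sum_add_distrib]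
            exact Finset.sum_congr rfl fun x _ => by rw [Pi.add_apply, add_mul]
          rw [e]
          have e2 : ((g + g', ∑ x, g x * z x + ∑ x, g' x * z x) : (X → ZMod 2) × ZMod 2)
              = (g, ∑ x, g x * z x) + (g', ∑ x, g' x * z x) := rfl
          rw [e2]
          abel)
  have hS : ((0, 1) : (X → ZMod 2) × ZMod 2) ∉ S := by
    rintro ⟨p, hp, g, hg, h⟩
    have h1 : (0 : X → ZMod 2) = p.1 + g := congrArg Prod.fst h
    have h2 : (1 : ZMod 2) = p.2 + ∑ x, g x * z x := congrArg Prod.snd h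
    have h3 : p.1 = g := by
      funext x
      have h4 := congrFun h1 x
      rw [Pi.zero_apply, Pi.add_apply] at h4
      have h5 : p.1 x + g x + g x = g x := by rw [← h4, zero_add]
      rw [add_assoc, z2, add_zero] at h5
      exact h5
    have h6 := hz p hp (fun x hx => by rw [h3]; exact hg x hx)
    rw [h3] at h6
    rw [h6, z2] at h2
    exact one_ne_zero h2
  obtain ⟨φ, hφ1, hφ2⟩ := S.exists_le_ker_of_notMem hS
  have hφ1' : φ (0, 1) = 1 := by
    rcases z2c (φ (0, 1)) with h | h
    · exact absurd h hφ1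
    · exact h
  have key : ∀ (f : X → ZMod 2) (c : ZMod 2),
      φ (f, c) = ∑ x, f x * φ (Pi.single x 1, 0) + c := by
    intro f c
    have e1 : ((f, c) : (X → ZMod 2) × ZMod 2) = LinearMap.inl (ZMod 2) (X → ZMod 2) (ZMod 2) f
        + c • ((0, 1) : (X → ZMod 2) × ZMod 2) := by
      ext <;> simp
    rw [e1, map_add, map_smul, hφ1', smul_eq_mul, mul_one]
    congr 1
    have e2 := lin_expand (φ.comp (LinearMap.inl (ZMod 2) (X → ZMod 2) (ZMod 2))) f
    exact e2
  have hz0 : ∀ w ∈ S, φ w = 0 := fun w hw => hφ2 hw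
  refine ⟨fun x => φ (Pi.single x 1, 0), ?_, ?_⟩
  · intro x hx
    have hw : ((Pi.single x 1, z x) : (X → ZMod 2) × ZMod 2) ∈ S := by
      refine ⟨0, h0, Pi.single x 1, ?_, ?_⟩
      · intro y hy
        have : y ≠ x := fun h => hy (h ▸ hx)
        exact Pi.single_eq_of_ne this 1
      · rw [zero_add]
        congr 1
        rw [Finset.sum_eq_single x]
        · simp
        · intro b _ hb
          rw [Pi.single_eq_of_ne hb, zero_mul]
        · intro h
          exact absurd (mem_univ x) h
    have h1 := hz0 _ hw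
    rw [key] at h1
    have h2 : ∑ y, (Pi.single x (1 : ZMod 2) : X → ZMod 2) y * φ (Pi.single y 1, 0)
        = φ (Pi.single x 1, 0) := by
      rw [Finset.sum_eq_single x]
      · simp
      · intro b _ hb
        rw [Pi.single_eq_of_ne hb, zero_mul]
      · intro h
        exact absurd (mem_univ x) h
    rw [h2] at h1
    show φ (Pi.single x 1, 0) = z x
    have h3 : φ (Pi.single x 1, 0) + z x + z x = z x := by rw [h1, zero_add]
    rw [add_assoc, z2, add_zero] at h3
    exact h3
  · intro p hp
    have hw : p ∈ S := ⟨p, hp, 0, fun _ _ => rfl, by simp⟩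
    have h1 := hz0 _ hw
    have h2 := key p.1 p.2
    rw [show ((p.1, p.2) : (X → ZMod 2) × ZMod 2) = p from rfl, h1] at h2
    have h3 : ∑ x, p.1 x * φ (Pi.single x 1, 0) + p.2 + p.2 = p.2 := by rw [← h2, zero_add]
    rw [add_assoc, z2, add_zero] at h3
    exact h3

theorem dual_dual {V : Type} [AddCommGroup V] (κ : Fin 15 → V → ZMod 2)
    (hκ : ∀ k x y, κ k (x + y) = κ k x + κ k y) (g : Fin 15 → ZMod 2)
    (hg : ∀ h : Fin 15 → ZMod 2, Dual κ h → ∑ k, h k * g k = 0) : ∃ x : V, ∀ k, κ k x = g k := by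
  have : Fact (Nat.Prime 2) := ⟨Nat.prime_two⟩
  have hκ0 : ∀ k, κ k 0 = 0 := by
    intro k
    have h := hκ k 0 0
    rw [add_zero, z2] at h
    exact h
  let S : Submodule (ZMod 2) (Fin 15 → ZMod 2) :=
    sub2 {w | ∃ x : V, w = fun k => κ k x} ⟨0, by funext k; exact (hκ0 k).symm⟩
      (by
        rintro _ ⟨x, rfl⟩ _ ⟨y, rfl⟩
        exact ⟨x + y, by funext k; exact (hκ k x y).symm⟩)
  by_contra hne
  have hgS : g ∉ S := by
    rintro ⟨x, hx⟩
    exact hne ⟨x, fun k => (congrFun hx k).symm⟩
  obtain ⟨φ, hφ1, hφ2⟩ := S.exists_le_ker_of_notMem hgS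
  apply hφ1
  rw [lin_expand φ g]
  have hd : Dual κ (fun k => φ (Pi.single k 1)) := by
    intro x
    have h1 : φ (fun k => κ k x) = 0 := hφ2 ⟨x, rfl⟩
    rw [lin_expand φ] at h1
    rw [← h1]
    exact Finset.sum_congr rfl fun k _ => by rw [smul_eq_mul, mul_comm]
  rw [← hg _ hd]
  exact Finset.sum_congr rfl fun k _ => by rw [smul_eq_mul, mul_comm]

end Pool.Agent.Lib.MP_af3183_lc
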