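import Pool.Agent.Lib.MP_af3183_lc.Core

/-!
# JOB VCC-GadBasic: basic facts on the gadget

`Gad = Vec ⊕ (Fin 6 × Fin 2 × Fin 2 × ZMod 2 × ZMod 2)`, `gpts (inl t) = tet t = {t, t+e1, t+e2, t+e3}`
(`vec 1, vec 2, vec 4`), `gpts (inr (i, α, β, v, w)) = {x | dot f x = v, dot g x = w}`, `f = vec (la i + 8 α)`,
`g = vec (lb i + 8 β)`.

(1) `gad_card`: `16 + 96 = 112`. (2) `gsh a`: the translation by `a`: `inl t -> inl (t + a)`,
`inr (i, α, β, v, w) -> inr (i, α, β, v + dot f a, w + dot g a)`; it is its own inverse (`a + a = 0`), and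
`gpts (gsh a j) = (gpts j).image (· + a)` (for the planes: `x = x' + a`, `dot f (x' + a) = dot f x' + dot f a`,
`dot` is additive). (3) all `gpts j` are non-empty: for the planes `f, g` are independent; either `decide` over
the finitely many cases (384 cases, each with 16 points; `decide +kernel` is allowed, `native_decide` is not) or
an explicit point. (4) exactly 28 indices have `0 in gpts j`: the 4 tetrahedra with `t in {0, e1, e2, e3}` and the
24 planes with `v = w = 0`. (5) two disjoint members: e.g. `inl 0` and `inl (vec 7)`. (6) `kap_add`. (7) `kap_dual`: a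
non-zero dual word has at least 3 non-zero coordinates: if `h` is dual then `sum_k h k • vec (k+1) = 0` in
`Fin 4 -> ZMod 2` (test with the four basis vectors `x`); if only one coordinate `k` is non-zero, `vec (k+1) = 0`,
impossible for `1 <= k+1 <= 15`; if exactly two, `k != k'`, `vec (k+1) = vec (k'+1)`, impossible (`vec` is injective on
`0..15`, by `decide`). `DualDist3` says `3 <= card of the support`.
-/

namespace Pool.Agent.Lib.MP_af3183_lc

open Finset

theorem gad_card : Fintype.card Gad = 112 := by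
  simp [Fintype.card_sum, Fintype.card_prod, ZMod.card]

private theorem GadBasic_dot_add (f x y : Vec) : dot f (x + y) = dot f x + dot f y := by
  simp [dot, mul_add, Finset.sum_add_distrib]

private theorem GadBasic_add_self (a : Vec) : a + a = 0 := by
  funext i
  exact CharTwo.add_self_eq_zero _

private theorem GadBasic_add_add (t a : Vec) : t + a + a = t := by
  rw [add_assoc, GadBasic_add_self, add_zero]

/-- the translation of the gadget -/
private def GadBasic_sh (a : Vec) : Gad → Gad
  | Sum.inl t => Sum.inl (t + a)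
  | Sum.inr (i, α, β, v, w) =>
      Sum.inr (i, α, β, v + dot (vec (la i + 8 * α)) a, w + dot (vec (lb i + 8 * β)) a)

private theorem GadBasic_sh_sh (a : Vec) (j : Gad) : GadBasic_sh a (GadBasic_sh a j) = j := by
  rcases j with t | ⟨i, α, β, v, w⟩
  · simp only [GadBasic_sh, GadBasic_add_add]
  · simp only [GadBasic_sh, add_assoc, CharTwo.add_self_eq_zero, add_zero]

theorem exists_gsh : ∃ sh : Vec → Gad ≃ Gad, ∀ a j, gpts (sh a j) = (gpts j).image (· + a) := by
  refine ⟨fun a => ⟨GadBasic_sh a, GadBasic_sh a, GadBasic_sh_sh a, GadBasic_sh_sh a⟩, ?_⟩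
  intro a j
  rcases j with t | ⟨i, α, β, v, w⟩
  · change tet (t + a) = (tet t).image (· + a)
    simp only [tet, Finset.image_insert, Finset.image_singleton]
    rw [add_right_comm t a (vec 1), add_right_comm t a (vec 2), add_right_comm t a (vec 4)]
  · change (univ.filter fun x : Vec => dot (vec (la i + 8 * α)) x = v + dot (vec (la i + 8 * α)) a ∧
      dot (vec (lb i + 8 * β)) x = w + dot (vec (lb i + 8 * β)) a) =
      (univ.filter fun x : Vec => dot (vec (la i + 8 * α)) x = v ∧
        dot (vec (lb i + 8 * β)) x = w).image (· + a)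
    ext x
    simp only [Finset.mem_filter, Finset.mem_univ, true_and, Finset.mem_image]
    constructor
    · rintro ⟨h1, h2⟩
      refine ⟨x + a, ⟨?_, ?_⟩, GadBasic_add_add x a⟩
      · rw [GadBasic_dot_add, h1, add_assoc, CharTwo.add_self_eq_zero, add_zero]
      · rw [GadBasic_dot_add, h2, add_assoc, CharTwo.add_self_eq_zero, add_zero]
    · rintro ⟨y, ⟨h1, h2⟩, rfl⟩
      exact ⟨by rw [GadBasic_dot_add, h1], by rw [GadBasic_dot_add, h2]⟩

private theorem GadBasic_plane : ∀ (i : Fin 6) (α β : Fin 2) (v w : ZMod 2), ∃ x : Vec,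
    dot (vec (la i + 8 * α)) x = v ∧ dot (vec (lb i + 8 * β)) x = w := by
  decide +kernel

theorem gpts_nonempty (j : Gad) : (gpts j).Nonempty := by
  rcases j with t | ⟨i, α, β, v, w⟩
  · exact ⟨t, by simp [gpts, tet]⟩
  · obtain ⟨x, h1, h2⟩ := GadBasic_plane i α β v w
    exact ⟨x, by simp [gpts, h1, h2]⟩

theorem gad_zero : (univ.filter fun j : Gad => (0 : Vec) ∈ gpts j).card = 28 := by
  decide +kernel

theorem gad_disj : ∃ j j' : Gad, j ≠ j' ∧ Disjoint (gpts j) (gpts j') := by
  refine ⟨Sum.inl 0, Sum.inl (vec 7), ?_, ?_⟩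
  · intro h
    have h1 := Sum.inl.inj h
    exact absurd h1 (by decide +kernel)
  · change Disjoint (tet 0) (tet (vec 7))
    decide +kernel

theorem kap_add (k : Fin 15) (x y : Vec) : kap k (x + y) = kap k x + kap k y :=
  GadBasic_dot_add _ _ _

private theorem GadBasic_v1 : ∀ k : Fin 15, ∃ x : Vec, kap k x ≠ 0 := by
  decide +kernel

private theorem GadBasic_v2 : ∀ k k' : Fin 15, k ≠ k' → ∃ x : Vec, kap k x + kap k' x ≠ 0 := by
  decide +kernel

private theorem GadBasic_z2 : ∀ z : ZMod 2, z ≠ 0 → z = 1 := by decide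

theorem kap_dual : DualDist3 kap := by
  intro h hd hne
  by_contra hcon
  have hsum : ∀ x : Vec, ∑ k ∈ univ.filter (fun k => h k ≠ 0), kap k x = 0 := by
    intro x
    refine Eq.trans ?_ (hd x)
    rw [Finset.sum_filter]
    refine Finset.sum_congr rfl fun k _ => ?_
    by_cases hk : h k = 0
    · simp [hk]
    · rw [if_pos hk, GadBasic_z2 _ hk, one_mul]
  have hle : (univ.filter fun k => h k ≠ 0).card ≤ 2 := by omega
  have h012 : (univ.filter fun k => h k ≠ 0).card = 0 ∨ (univ.filter fun k => h k ≠ 0).card = 1 ∨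
      (univ.filter fun k => h k ≠ 0).card = 2 := by omega
  rcases h012 with h0 | h1 | h2
  · apply hne
    funext k
    by_contra hk
    rw [Finset.card_eq_zero] at h0
    have : k ∈ univ.filter fun k => h k ≠ 0 := by simpa using hk
    rw [h0] at this
    simp at this
  · obtain ⟨k, hk⟩ := Finset.card_eq_one.1 h1
    obtain ⟨x, hx⟩ := GadBasic_v1 k
    have := hsum x
    rw [hk, Finset.sum_singleton] at this
    exact hx this
  · obtain ⟨k, k', hkk, hk⟩ := Finset.card_eq_two.1 h2
    obtain ⟨x, hx⟩ := GadBasic_v2 k k' hkk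
    have := hsum x
    rw [hk, Finset.sum_pair hkk] at this
    exact hx this

end Pool.Agent.Lib.MP_af3183_lc
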