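import Pool.Agent.Lib.MP_af3183_lc.GadY
import Pool.Agent.Lib.MP_af3183_lc.GadBasic

/-!
# JOB VCC-GadInv: reduction of the sum over all words to the 2048 representatives

(1) `Smax_inv`: `Smax gpts kap (y + (kap k a)_k) = Smax gpts kap y`. PROOF. With `sh = exists_gsh`: if `I` is a good family for
`y` then `I.map (sh a)` is a good family for `y + kap a` (survival: `x in gpts j` with `kap k x = y k` gives
`x + a in gpts (sh a j)`, `kap k (x + a) = y k + kap k a`; disjointness is invariant under translation) of the same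
size; so `Smax y <= Smax (y + kap a)`; apply this twice (`a + a = 0`, `kap k a + kap k a = 0`).
(2) `sum_inv`: every `y` is `yof n + kap a` for exactly one pair `(a, n)`, `a : Vec`, `n < 2048`. PROOF. `yof n` vanishes at
the coordinates `0, 1, 3, 7` and the other 11 coordinates (codes `3, 5, 6, 7, 9, ..., 15`) are the bits of `n`
(`wordOf n = 8 (n % 2) + 32 ((n / 2) % 8) + 512 (n / 16)`); `kap k a` at `k = 0, 1, 3, 7` is `a 0, a 1, a 2, a 3`. So
`a = (y 0, y 1, y 3, y 7)` is forced and then `n` is the code of `y + kap a`. Both sides have `2^15 = 16 * 2048` elements,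
so injectivity of `(a, n) -> yof n + kap a` suffices (`Function.Injective` between finite types of the same
cardinality is bijective), and it is enough that `n -> yof n` is injective on `n < 2048` (a bit computation: e.g. from
`yof n = yof n'` get equality of all bits of `wordOf`, or check with `decide +kernel` that a decoding function
is a left inverse) and `a` is determined. Then `sum_y f y = sum_a sum_n f (yof n + kap a) = 16 sum_n f (yof n)`.
-/

namespace Pool.Agent.Lib.MP_af3183_lc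

open Finset

private theorem GadInv_le (y : Fin 15 → ZMod 2) (a : Vec) :
    Smax gpts kap y ≤ Smax gpts kap (fun k => y k + kap k a) := by
  classical
  obtain ⟨sh, hsh⟩ := exists_gsh
  unfold Smax
  refine Finset.sup_le ?_
  intro I hI
  rw [Finset.mem_filter] at hI
  obtain ⟨-, hS, hD⟩ := hI
  have hmem : I.map (sh a).toEmbedding ∈ (univ : Finset (Finset Gad)).filter
      fun I => GoodFam gpts kap (fun k => y k + kap k a) I := by
    rw [Finset.mem_filter]
    refine ⟨Finset.mem_univ _, ?_, ?_⟩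
    · intro j hj k
      rw [Finset.mem_map] at hj
      obtain ⟨i, hi, rfl⟩ := hj
      obtain ⟨x, hx, hxy⟩ := hS i hi k
      refine ⟨x + a, ?_, ?_⟩
      · change x + a ∈ gpts (sh a i)
        rw [hsh]
        exact Finset.mem_image_of_mem _ hx
      · rw [kap_add, hxy]
    · intro j hj j' hj'
      rw [Finset.mem_map] at hj hj'
      obtain ⟨i, hi, rfl⟩ := hj
      obtain ⟨i', hi', rfl⟩ := hj'
      change ¬ Disjoint (gpts (sh a i)) (gpts (sh a i'))
      rw [hsh, hsh, Finset.disjoint_image (add_left_injective a)]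
      exact hD i hi i' hi'
  have h := Finset.le_sup (f := Finset.card) hmem
  rwa [Finset.card_map] at h

theorem Smax_inv (y : Fin 15 → ZMod 2) (a : Vec) :
    Smax gpts kap (fun k => y k + kap k a) = Smax gpts kap y := by
  refine le_antisymm ?_ (GadInv_le y a)
  have h := GadInv_le (fun k => y k + kap k a) a
  have e : (fun k => y k + kap k a + kap k a) = y := by
    funext k
    rw [add_assoc, CharTwo.add_self_eq_zero, add_zero]
  simp only [e] at h
  exact h

private theorem GadInv_bt (Y a : ℕ) : Eval.bt Y a = Y / 2 ^ a % 2 := by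
  have h : Eval.bt Y a = (Y >>> a) % 2 := rfl
  rw [h, Nat.shiftRight_eq_div_pow]

private theorem GadInv_word (n : ℕ) :
    Eval.wordOf n = 8 * (n % 2) + (32 * (n / 2 % 8) + 512 * (n / 16)) := rfl

private theorem GadInv_kap (a : Vec) : kap 0 a = a 0 ∧ kap 1 a = a 1 ∧ kap 3 a = a 2 ∧ kap 7 a = a 3 := by
  refine ⟨?_, ?_, ?_, ?_⟩ <;> simp [kap, dot, vec, Fin.sum_univ_four, Nat.testBit, Nat.shiftRight_eq_div_pow]

private theorem GadInv_zero (n : ℕ) : yof n 0 = 0 ∧ yof n 1 = 0 ∧ yof n 3 = 0 ∧ yof n 7 = 0 := by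
  have h0 : (((0 : Fin 15) : ℕ) + 1) = 1 := rfl
  have h1 : (((1 : Fin 15) : ℕ) + 1) = 2 := rfl
  have h3 : (((3 : Fin 15) : ℕ) + 1) = 4 := rfl
  have h7 : (((7 : Fin 15) : ℕ) + 1) = 8 := rfl
  have e0 : Eval.bt (Eval.wordOf n) 1 = 0 := by rw [GadInv_bt, GadInv_word]; norm_num; omega
  have e1 : Eval.bt (Eval.wordOf n) 2 = 0 := by rw [GadInv_bt, GadInv_word]; norm_num; omega
  have e3 : Eval.bt (Eval.wordOf n) 4 = 0 := by rw [GadInv_bt, GadInv_word]; norm_num; omega
  have e7 : Eval.bt (Eval.wordOf n) 8 = 0 := by rw [GadInv_bt, GadInv_word]; norm_num; omega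
  refine ⟨?_, ?_, ?_, ?_⟩
  · unfold yof; rw [h0, e0, Nat.cast_zero]
  · unfold yof; rw [h1, e1, Nat.cast_zero]
  · unfold yof; rw [h3, e3, Nat.cast_zero]
  · unfold yof; rw [h7, e7, Nat.cast_zero]

private theorem GadInv_bit {n m : ℕ} (h : yof n = yof m) (k : Fin 15) :
    Eval.wordOf n / 2 ^ ((k : ℕ) + 1) % 2 = Eval.wordOf m / 2 ^ ((k : ℕ) + 1) % 2 := by
  have h1 := congrFun h k
  unfold yof at h1
  rw [GadInv_bt, GadInv_bt, ZMod.natCast_eq_natCast_iff', Nat.mod_mod, Nat.mod_mod] at h1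
  exact h1

private theorem GadInv_hi (n : ℕ) : Eval.wordOf n / 512 = n / 16 := by
  rw [GadInv_word]; omega

private theorem GadInv_k2 (n : ℕ) : Eval.wordOf n / 2 ^ (((2 : Fin 15) : ℕ) + 1) % 2 = n / 1 % 2 := by
  show Eval.wordOf n / 8 % 2 = n / 1 % 2
  rw [GadInv_word]; omega

private theorem GadInv_k4 (n : ℕ) : Eval.wordOf n / 2 ^ (((4 : Fin 15) : ℕ) + 1) % 2 = n / 2 % 2 := by
  show Eval.wordOf n / 32 % 2 = n / 2 % 2
  rw [GadInv_word]; omega

private theorem GadInv_k5 (n : ℕ) : Eval.wordOf n / 2 ^ (((5 : Fin 15) : ℕ) + 1) % 2 = n / 4 % 2 := by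
  show Eval.wordOf n / 64 % 2 = n / 4 % 2
  rw [GadInv_word]; omega

private theorem GadInv_k6 (n : ℕ) : Eval.wordOf n / 2 ^ (((6 : Fin 15) : ℕ) + 1) % 2 = n / 8 % 2 := by
  show Eval.wordOf n / 128 % 2 = n / 8 % 2
  rw [GadInv_word]; omega

private theorem GadInv_k8 (n : ℕ) : Eval.wordOf n / 2 ^ (((8 : Fin 15) : ℕ) + 1) % 2 = n / 16 % 2 := by
  show Eval.wordOf n / 512 % 2 = n / 16 % 2
  rw [GadInv_word]; omega

private theorem GadInv_k9 (n : ℕ) : Eval.wordOf n / 2 ^ (((9 : Fin 15) : ℕ) + 1) % 2 = n / 32 % 2 := by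
  show Eval.wordOf n / 1024 % 2 = n / 32 % 2
  have h : Eval.wordOf n / 1024 = Eval.wordOf n / 512 / 2 := by rw [Nat.div_div_eq_div_mul]
  rw [h, GadInv_hi, Nat.div_div_eq_div_mul]

private theorem GadInv_k10 (n : ℕ) : Eval.wordOf n / 2 ^ (((10 : Fin 15) : ℕ) + 1) % 2 = n / 64 % 2 := by
  show Eval.wordOf n / 2048 % 2 = n / 64 % 2
  have h : Eval.wordOf n / 2048 = Eval.wordOf n / 512 / 4 := by rw [Nat.div_div_eq_div_mul]
  rw [h, GadInv_hi, Nat.div_div_eq_div_mul]

private theorem GadInv_k11 (n : ℕ) : Eval.wordOf n / 2 ^ (((11 : Fin 15) : ℕ) + 1) % 2 = n / 128 % 2 := by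
  show Eval.wordOf n / 4096 % 2 = n / 128 % 2
  have h : Eval.wordOf n / 4096 = Eval.wordOf n / 512 / 8 := by rw [Nat.div_div_eq_div_mul]
  rw [h, GadInv_hi, Nat.div_div_eq_div_mul]

private theorem GadInv_k12 (n : ℕ) : Eval.wordOf n / 2 ^ (((12 : Fin 15) : ℕ) + 1) % 2 = n / 256 % 2 := by
  show Eval.wordOf n / 8192 % 2 = n / 256 % 2
  have h : Eval.wordOf n / 8192 = Eval.wordOf n / 512 / 16 := by rw [Nat.div_div_eq_div_mul]
  rw [h, GadInv_hi, Nat.div_div_eq_div_mul]

private theorem GadInv_k13 (n : ℕ) : Eval.wordOf n / 2 ^ (((13 : Fin 15) : ℕ) + 1) % 2 = n / 512 % 2 := by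
  show Eval.wordOf n / 16384 % 2 = n / 512 % 2
  have h : Eval.wordOf n / 16384 = Eval.wordOf n / 512 / 32 := by rw [Nat.div_div_eq_div_mul]
  rw [h, GadInv_hi, Nat.div_div_eq_div_mul]

private theorem GadInv_k14 (n : ℕ) : Eval.wordOf n / 2 ^ (((14 : Fin 15) : ℕ) + 1) % 2 = n / 1024 % 2 := by
  show Eval.wordOf n / 32768 % 2 = n / 1024 % 2
  have h : Eval.wordOf n / 32768 = Eval.wordOf n / 512 / 64 := by rw [Nat.div_div_eq_div_mul]
  rw [h, GadInv_hi, Nat.div_div_eq_div_mul]

private theorem GadInv_inj {n m : ℕ} (hn : n < 2048) (hm : m < 2048) (h : yof n = yof m) : n = m := by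
  have b2 := GadInv_bit h 2
  have b4 := GadInv_bit h 4
  have b5 := GadInv_bit h 5
  have b6 := GadInv_bit h 6
  have b8 := GadInv_bit h 8
  have b9 := GadInv_bit h 9
  have b10 := GadInv_bit h 10
  have b11 := GadInv_bit h 11
  have b12 := GadInv_bit h 12
  have b13 := GadInv_bit h 13
  have b14 := GadInv_bit h 14
  rw [GadInv_k2, GadInv_k2] at b2
  rw [GadInv_k4, GadInv_k4] at b4
  rw [GadInv_k5, GadInv_k5] at b5
  rw [GadInv_k6, GadInv_k6] at b6
  rw [GadInv_k8, GadInv_k8] at b8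
  rw [GadInv_k9, GadInv_k9] at b9
  rw [GadInv_k10, GadInv_k10] at b10
  rw [GadInv_k11, GadInv_k11] at b11
  rw [GadInv_k12, GadInv_k12] at b12
  rw [GadInv_k13, GadInv_k13] at b13
  rw [GadInv_k14, GadInv_k14] at b14
  omega

theorem sum_inv (f : (Fin 15 → ZMod 2) → ℕ)
    (hf : ∀ (y : Fin 15 → ZMod 2) (a : Vec), f (fun k => y k + kap k a) = f y) :
    ∑ y, f y = 16 * ∑ n ∈ range 2048, f (yof n) := by
  classical
  let φ : Vec × Fin 2048 → (Fin 15 → ZMod 2) := fun p k => yof p.2 k + kap k p.1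
  have hinj : Function.Injective φ := by
    rintro ⟨a, n⟩ ⟨b, m⟩ h
    have hk : ∀ k, yof n k + kap k a = yof m k + kap k b := fun k => congrFun h k
    have hz := GadInv_zero n
    have hz' := GadInv_zero m
    have ha := GadInv_kap a
    have hb := GadInv_kap b
    have hab : a = b := by
      have e0 := hk 0
      have e1 := hk 1
      have e2 := hk 3
      have e3 := hk 7
      rw [hz.1, hz'.1, ha.1, hb.1, zero_add, zero_add] at e0
      rw [hz.2.1, hz'.2.1, ha.2.1, hb.2.1, zero_add, zero_add] at e1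
      rw [hz.2.2.1, hz'.2.2.1, ha.2.2.1, hb.2.2.1, zero_add, zero_add] at e2
      rw [hz.2.2.2, hz'.2.2.2, ha.2.2.2, hb.2.2.2, zero_add, zero_add] at e3
      funext i
      fin_cases i
      · exact e0
      · exact e1
      · exact e2
      · exact e3
    subst hab
    have hy : yof n = yof m := by
      funext k
      exact add_right_cancel (hk k)
    have hnm : (n : ℕ) = m := GadInv_inj n.2 m.2 hy
    rw [Prod.mk.injEq]
    exact ⟨rfl, Fin.ext hnm⟩
  have hbij : Function.Bijective φ := by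
    rw [Fintype.bijective_iff_injective_and_card]
    refine ⟨hinj, ?_⟩
    rw [Fintype.card_prod, Fintype.card_fun, Fintype.card_fun, Fintype.card_fin, Fintype.card_fin,
      Fintype.card_fin, ZMod.card]
    norm_num
  have h1 : ∑ y, f y = ∑ p : Vec × Fin 2048, f (φ p) :=
    (Function.Bijective.sum_comp hbij f).symm
  rw [h1, Fintype.sum_prod_type]
  have h2 : ∀ a : Vec, ∑ n : Fin 2048, f (φ (a, n)) = ∑ n ∈ range 2048, f (yof n) := by
    intro a
    rw [← Fin.sum_univ_eq_sum_range (fun n => f (yof n)) 2048]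
    refine Finset.sum_congr rfl fun n _ => ?_
    exact hf (yof n) a
  rw [Finset.sum_congr rfl fun a _ => h2 a, Finset.sum_const, Finset.card_univ, Fintype.card_fun,
    Fintype.card_fin, ZMod.card, smul_eq_mul]
  norm_num

end Pool.Agent.Lib.MP_af3183_lc
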