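import Pool.Agent.Lib.MP_af3183_lc.GadLocA

/-!
# JOB VCC-GadLoc: the local bound for the representatives

STATEMENT `Smax_yof`: `Smax gpts kap (yof n) <= Eval.mval n` for `n < 2048`.

`GadLocA` (imported) contains the finite facts used below: `mask_iff`, `cnt_edges`, `ts_mem`, `tet_disj`,
`tet_three`, `vec_surj`, `vec_inj`, `dot_lift`, and `lc` (third codes).

Notation: `Y = Eval.wordOf n` (its bits `1, 2, 4, 8` are `0`, all bits are `< 16`), `y = yof n`, `y k = ` bit `k+1` of `Y`.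
Codes: for `i : Fin 6`: `a = la i`, `b = lb i`, `c = a xor b`; the six triples are `(1,2,3), (1,4,5), (1,6,7), (2,4,6),
(2,5,7), (3,4,7)`. For the lift `(α, β)`: `A = a + 8 α`, `B = b + 8 β`, `C = c + 8 (α xor β)`,
`vec A + vec B = vec C`, i.e. `dot (vec C) x = dot (vec A) x + dot (vec B) x`. `kap k x = dot (vec (k+1)) x`.

PROOF. Let `I : Finset Gad` be a good family (`GoodFam gpts kap y I`); show `|I| <= mval n`; then `Finset.sup_le`.
(1) TETRAHEDRA. If `inl t in I`, survival at the coordinate `k = 7` (functional with bits `8`, i.e. `x 3`): all points of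
`tet t` have `x 3 = t 3`, so `t 3 = y 7 = 0`. So `t = vec m` for a unique `m < 8`. Let `Tm = {m < 8 | inl (vec m) in I}`,
`T = sum_{m in Tm} 2^m < 256` its mask. `tet (vec m)` and `tet (vec (7 - m))` are disjoint (`decide`), so `Tm` contains at most
one of `m, 7 - m`; so `T + 256 |Tm| in Eval.Ts` (81 codes; `decide` over the 256 subsets of `Fin 8`).
(2) PLANES. If `inr (i, α, β, v, w) in I`: survival at the coordinates `A - 1, B - 1, C - 1` and since `dot (vec A) x = v`,
`dot (vec B) x = w` on the plane: `y (A-1) = v`, `y (B-1) = w`, `y (C-1) = v + w`. So the lift `(i, α, β)` is consistent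
(`bt Y A + bt Y B + bt Y C` even) and `v, w` are determined: the number of planes in `I` is at most the number of
consistent lifts `(i, α, β)` such that the plane `(i, α, β, y (A-1), y (B-1))` meets all `tet (vec m)`, `m in Tm`.
(3) For `m < 8` the plane `(i, α, β, v, w)` is disjoint from `tet (vec m)` iff bit `m` of `Eval.edge i v w` is `1` (`v, w` as
`0/1`; a finite check, `6*2*2*2*2*8 = 768` cases, `decide +kernel` or by hand: on `x 3 = 0` the plane is
`{x | dot (vec a) x = v, dot (vec b) x = w}`, whatever `α, β` are). So a consistent lift whose plane meets all `tet (vec m)`,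
`m in Tm`, has `edge i v w &&& T = 0`.
(4) `Eval.edges Y` is the list of the masks `edge i (bt Y A) (bt Y B)` over the consistent lifts, in the order of `i` and
`(0,0), (0,1), (1,0), (1,1)` (unfold `edges`, `lineE`, `addE`, `sel`). So by (2), (3) the number of planes in `I` is at most
`((Eval.edges Y).filter (fun e => e &&& T = 0)).length = Eval.cnt T (Eval.edges Y)` (`Eval.cnt_eq`). (A convenient way: write
`cnt T (edges Y)` as the sum over the 24 lifts of `if consistent and mask &&& T = 0 then 1 else 0`.)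
(5) `|I| <= |Tm| + cnt T (edges Y) <= mval n` by `Eval.eval_le` for the code `T + 256 |Tm|` (`(T + 256 q) % 256 = T`,
`(T + 256 q) / 256 = q`).
-/

namespace Pool.Agent.Lib.MP_af3183_lc

open Finset

private theorem gadLoc_bits : ∀ s : Finset (Fin 8), ∀ j : Fin 8,
    (∑ m ∈ s, 2 ^ m.val).testBit j.val = decide (j ∈ s) := by
  decide +kernel

private theorem gadLoc_w8 (n : ℕ) : Eval.bt (Eval.wordOf n) 8 = 0 := by
  show ((8 * (n % 2) + (32 * ((n / 2) % 8) + 512 * (n / 16))) >>> 8) % 2 = 0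
  rw [Nat.shiftRight_eq_div_pow]
  omega

private theorem gadLoc_kap7 (x : Vec) : kap 7 x = x 3 := by
  have h0 : vec (((7 : Fin 15) : ℕ) + 1) = ![0, 0, 0, 1] := by decide
  unfold kap dot
  rw [h0]
  simp [Fin.sum_univ_four]

private theorem gadLoc_bt_lt (Y a : ℕ) : Eval.bt Y a < 2 := Nat.mod_lt _ (by norm_num)

private theorem gadLoc_lab : ∀ i : Fin 6, (1 ≤ la i ∧ la i ≤ 7) ∧ (1 ≤ lb i ∧ lb i ≤ 7) ∧
    (1 ≤ lc i ∧ lc i ≤ 7) := by decide

private theorem gadLoc_coord (a : ℕ) (α : ℕ) (h1 : 1 ≤ a) (h7 : a ≤ 7) (hα : α < 2) :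
    ∃ k : Fin 15, (k : ℕ) + 1 = a + 8 * α := by
  refine ⟨⟨a + 8 * α - 1, by omega⟩, ?_⟩
  show a + 8 * α - 1 + 1 = a + 8 * α
  omega

theorem Smax_yof (n : ℕ) (hn : n < 2048) : Smax gpts kap (yof n) ≤ Eval.mval n := by
  classical
  unfold Smax
  refine Finset.sup_le ?_
  intro I hI
  obtain ⟨hs, hint⟩ := (mem_filter.1 hI).2
  obtain ⟨Y, hY⟩ : ∃ Y, Y = Eval.wordOf n := ⟨_, rfl⟩
  have hyof : ∀ k : Fin 15, yof n k = (Eval.bt Y ((k : ℕ) + 1) : ZMod 2) := by
    intro k; rw [hY]; rfl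
  obtain ⟨Tm, hTm⟩ : ∃ Tm : Finset (Fin 8),
      Tm = univ.filter fun m : Fin 8 => (Sum.inl (vec m.val) : Gad) ∈ I := ⟨_, rfl⟩
  have hTmem : ∀ m : Fin 8, m ∈ Tm ↔ (Sum.inl (vec m.val) : Gad) ∈ I := by
    intro m; rw [hTm]; simp
  obtain ⟨T, hT⟩ : ∃ T, T = ∑ m ∈ Tm, 2 ^ m.val := ⟨_, rfl⟩
  have hbit : ∀ j : Fin 8, T.testBit j.val = decide (j ∈ Tm) := by
    intro j; rw [hT]; exact gadLoc_bits Tm j
  have hTlt : T < 256 := by
    have h1 : T ≤ ∑ m : Fin 8, 2 ^ m.val := by
      rw [hT]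
      exact sum_le_sum_of_subset (subset_univ _)
    have h2 : ∑ m : Fin 8, 2 ^ m.val = 255 := by decide
    omega
  have hTs : T + 256 * Tm.card ∈ Eval.Ts := by
    rw [hT]
    refine ts_mem Tm fun m hm hm' => ?_
    exact hint _ ((hTmem m).1 hm) _ ((hTmem (7 - m)).1 hm') (tet_disj m)
  have hev := Eval.eval_le n hn _ hTs
  have e1 : (T + 256 * Tm.card) / 256 = Tm.card := by omega
  have e2 : (T + 256 * Tm.card) % 256 = T := by omega
  rw [e1, e2, ← hY, cnt_edges] at hev
  refine le_trans ?_ hev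
  obtain ⟨Q, hQ⟩ : ∃ Q : Finset (Fin 6 × Fin 2 × Fin 2), Q =
    (univ.filter fun q : Fin 6 × Fin 2 × Fin 2 =>
      (Eval.bt Y (la q.1 + 8 * q.2.1) + Eval.bt Y (lb q.1 + 8 * q.2.2) +
        Eval.bt Y (lc q.1 + 8 * ((q.2.1.val + q.2.2.val) % 2))) % 2 = 0 ∧
      (Eval.edge q.1 (Eval.bt Y (la q.1 + 8 * q.2.1)) (Eval.bt Y (lb q.1 + 8 * q.2.2))) &&& T = 0) :=
    ⟨_, rfl⟩
  rw [← hQ]
  have hsub : I ⊆ Tm.image (fun m : Fin 8 => (Sum.inl (vec m.val) : Gad)) ∪
      Q.image (fun q : Fin 6 × Fin 2 × Fin 2 => (Sum.inr (q.1, q.2.1, q.2.2,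
        (Eval.bt Y (la q.1 + 8 * q.2.1) : ZMod 2), (Eval.bt Y (lb q.1 + 8 * q.2.2) : ZMod 2)) : Gad)) := by
    intro g hg
    rcases g with t | ⟨i, α, β, v, w⟩
    · obtain ⟨x, hx, hx'⟩ := hs _ hg 7
      have h3 : x 3 = t 3 := tet_three t x hx
      rw [gadLoc_kap7, hyof] at hx'
      have h8 : Eval.bt Y (((7 : Fin 15) : ℕ) + 1) = 0 := by rw [hY]; exact gadLoc_w8 n
      rw [h8] at hx'
      have ht : t 3 = 0 := by rw [← h3, hx']; rfl
      obtain ⟨m, rfl⟩ := vec_surj t ht
      exact mem_union_left _ (mem_image.2 ⟨m, (hTmem m).2 hg, rfl⟩)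
    · obtain ⟨⟨a1, a7⟩, ⟨b1, b7⟩, ⟨c1, c7⟩⟩ := gadLoc_lab i
      obtain ⟨kA, hkA⟩ := gadLoc_coord (la i) α a1 a7 α.isLt
      obtain ⟨kB, hkB⟩ := gadLoc_coord (lb i) β b1 b7 β.isLt
      obtain ⟨kC, hkC⟩ := gadLoc_coord (lc i) ((α.val + β.val) % 2) c1 c7 (Nat.mod_lt _ (by norm_num))
      have hmem : ∀ x ∈ gpts (Sum.inr (i, α, β, v, w)),
          dot (vec (la i + 8 * α)) x = v ∧ dot (vec (lb i + 8 * β)) x = w := fun x hx =>
        (mem_filter.1 hx).2
      obtain ⟨x, hx, hx'⟩ := hs _ hg kA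
      have hv : v = (Eval.bt Y (la i + 8 * α) : ZMod 2) := by
        have e : kap kA x = dot (vec (la i + 8 * α)) x := by
          show dot (vec ((kA : ℕ) + 1)) x = _
          rw [hkA]
        rw [e, hyof, hkA, (hmem x hx).1] at hx'
        exact hx'
      obtain ⟨x, hx, hx'⟩ := hs _ hg kB
      have hw : w = (Eval.bt Y (lb i + 8 * β) : ZMod 2) := by
        have e : kap kB x = dot (vec (lb i + 8 * β)) x := by
          show dot (vec ((kB : ℕ) + 1)) x = _
          rw [hkB]
        rw [e, hyof, hkB, (hmem x hx).2] at hx'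
        exact hx'
      obtain ⟨x, hx, hx'⟩ := hs _ hg kC
      have hc : v + w = (Eval.bt Y (lc i + 8 * ((α.val + β.val) % 2)) : ZMod 2) := by
        have e : kap kC x = dot (vec (lc i + 8 * ((α.val + β.val) % 2))) x := by
          show dot (vec ((kC : ℕ) + 1)) x = _
          rw [hkC]
        rw [e, hyof, hkC, dot_lift, (hmem x hx).1, (hmem x hx).2] at hx'
        exact hx'
      refine mem_union_right _ (mem_image.2 ⟨(i, α, β), ?_, ?_⟩)
      · rw [hQ]
        refine mem_filter.2 ⟨mem_univ _, ?_, ?_⟩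
        · show (Eval.bt Y (la i + 8 * α) + Eval.bt Y (lb i + 8 * β) +
            Eval.bt Y (lc i + 8 * ((α.val + β.val) % 2))) % 2 = 0
          have h2 : ((Eval.bt Y (la i + 8 * α) + Eval.bt Y (lb i + 8 * β) +
              Eval.bt Y (lc i + 8 * ((α.val + β.val) % 2)) : ℕ) : ZMod 2) = 0 := by
            push_cast
            rw [← hc, ← hv, ← hw]
            exact CharTwo.add_self_eq_zero _
          exact Nat.mod_eq_zero_of_dvd ((ZMod.natCast_eq_zero_iff _ _).1 h2)
        · show (Eval.edge i (Eval.bt Y (la i + 8 * α)) (Eval.bt Y (lb i + 8 * β))) &&& T = 0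
          refine Nat.eq_of_testBit_eq fun j => ?_
          rw [Nat.testBit_and, Nat.zero_testBit]
          by_cases hj : j < 8
          · rw [hbit ⟨j, hj⟩]
            by_cases hjT : (⟨j, hj⟩ : Fin 8) ∈ Tm
            · have hnd := hint _ hg _ ((hTmem _).1 hjT)
              have hm := mask_iff i α β (Eval.bt Y (la i + 8 * α)) (Eval.bt Y (lb i + 8 * β)) j
                (gadLoc_bt_lt _ _) (gadLoc_bt_lt _ _) hj
              rw [← hv, ← hw] at hm
              have : ¬ (Eval.edge i (Eval.bt Y (la i + 8 * α)) (Eval.bt Y (lb i + 8 * β))).testBit j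
                  = true := fun h => hnd (hm.2 h)
              rw [Bool.not_eq_true] at this
              rw [this]
              rfl
            · rw [decide_eq_false hjT, Bool.and_false]
          · have : T.testBit j = false := by
              refine Nat.testBit_lt_two_pow (hTlt.trans_le ?_)
              calc 256 = 2 ^ 8 := by norm_num
                _ ≤ 2 ^ j := Nat.pow_le_pow_right (by norm_num) (by omega)
            rw [this, Bool.and_false]
      · rw [hv, hw]
  refine (card_le_card hsub).trans ((card_union_le _ _).trans ?_)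
  exact Nat.add_le_add card_image_le card_image_le

end Pool.Agent.Lib.MP_af3183_lc
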