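import Pool.Agent.Lib.MP_af3183_lc.Core

/-!
# JOB VCC-Indep: independent sets of the graph

STATEMENT. `I` independent in `gr pts κ r b p` (all `pts j` non-empty). Then there is `z` with
`|I| <= sum_c Smax pts κ (k -> z k (r c k) + b c k) + p`.

PROOF. For `k : Fin 15`, `i : Fin N` consider the pairs `(c, j)` with `inl (c, j) in I` and `r c k = i`. CLAIM: there is a
value `z k i : ZMod 2` such that for all these pairs some `x in pts j` has `κ k x + b c k = z k i`. If for one pair
`(c0, j0)` the function `x -> κ k x + b c0 k` is constant `= v` on `pts j0`, take `z k i = v`: for another pair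
`(c, j)` non-adjacency of `inl (c, j)` and `inl (c0, j0)` gives `x in pts j`, `x' in pts j0` with
`κ k x + b c k = κ k x' + b c0 k = v` (the conflict via `k` fails; `r c k = i = r c0 k`); for the pair itself use that
`pts j0` is non-empty. If no pair is constant, every pair takes both values `0, 1` and `z k i = 0` works.
Put `y c k = z k (r c k) + b c k`, `I_c = {j | inl (c, j) in I}`. `GoodFam pts κ (y c) I_c`: survivors: for `k` take
`x in pts j` with `κ k x + b c k = z k (r c k)`, so `κ k x = y c k` (characteristic 2: `ZMod 2`, `b + b = 0`). Intersecting: for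
`j != j'` in `I_c` the vertices are different and non-adjacent, so `pts j`, `pts j'` are not disjoint; for `j = j'`
use non-emptiness. So `|I_c| <= Smax pts κ (y c)` (`Finset.le_sup`). Finally `|I| <= sum_c |I_c| + p`
(`I` injects into the sigma type / count the `inl` and `inr` parts separately).
-/

namespace Pool.Agent.Lib.MP_af3183_lc

open Finset

private theorem zmod2_eq_zero {v : ZMod 2} (h : v ≠ 1) : v = 0 := by
  revert v; decide

private theorem zmod2_cancel (a b : ZMod 2) : a + b + b = a := by
  revert a b; decide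

private theorem exists_value {V J : Type} (pts : J → Finset V) (hne : ∀ j, (pts j).Nonempty)
    (κ : Fin 15 → V → ZMod 2) {M N : ℕ} (r : Fin M → Fin 15 → Fin N) (b : Fin M → Fin 15 → ZMod 2)
    (p : ℕ) (I : Finset (Vtx J M p))
    (hI : ∀ u ∈ I, ∀ v ∈ I, ¬ (gr pts κ r b p).Adj u v) (k : Fin 15) (i : Fin N) :
    ∃ v : ZMod 2, ∀ (c : Fin M) (j : J), Sum.inl (c, j) ∈ I → r c k = i →
      ∃ x ∈ pts j, κ k x + b c k = v := by
  by_cases h : ∃ (c0 : Fin M) (j0 : J) (v : ZMod 2), Sum.inl (c0, j0) ∈ I ∧ r c0 k = i ∧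
      ∀ x ∈ pts j0, κ k x + b c0 k = v
  · obtain ⟨c0, j0, v, h0, h1, h2⟩ := h
    refine ⟨v, ?_⟩
    intro c j hc hr
    by_cases he : (Sum.inl (c, j) : Vtx J M p) = Sum.inl (c0, j0)
    · have he' : (c, j) = (c0, j0) := Sum.inl.inj he
      have e1 : c = c0 := congrArg Prod.fst he'
      have e2 : j = j0 := congrArg Prod.snd he'
      subst e1
      subst e2
      obtain ⟨x, hx⟩ := hne j
      exact ⟨x, hx, h2 x hx⟩
    · by_contra hcon
      push Not at hcon
      apply hI _ hc _ h0
      refine ⟨he, (c, j), (c0, j0), rfl, rfl, Or.inr ⟨k, ?_, ?_⟩⟩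
      · show r c k = r c0 k
        rw [hr, h1]
      · intro x hx x' hx'
        show κ k x + b c k ≠ κ k x' + b c0 k
        rw [h2 x' hx']
        exact hcon x hx
  · push Not at h
    refine ⟨0, ?_⟩
    intro c j hc hr
    obtain ⟨x, hx, hx1⟩ := h c j 1 hc hr
    exact ⟨x, hx, zmod2_eq_zero hx1⟩

theorem indep_le {V J : Type} [Fintype J] (pts : J → Finset V) (hne : ∀ j, (pts j).Nonempty)
    (κ : Fin 15 → V → ZMod 2) {M N : ℕ} (r : Fin M → Fin 15 → Fin N) (b : Fin M → Fin 15 → ZMod 2)
    (p : ℕ) (I : Finset (Vtx J M p))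
    (hI : ∀ u ∈ I, ∀ v ∈ I, ¬ (gr pts κ r b p).Adj u v) :
    ∃ z : Fin 15 → Fin N → ZMod 2,
      I.card ≤ ∑ c, Smax pts κ (fun k => z k (r c k) + b c k) + p := by
  classical
  choose z hz using fun k i => exists_value pts hne κ r b p I hI k i
  refine ⟨z, ?_⟩
  let S : Fin M → Finset J := fun c => univ.filter fun j => (Sum.inl (c, j) : Vtx J M p) ∈ I
  have hgood : ∀ c, GoodFam pts κ (fun k => z k (r c k) + b c k) (S c) := by
    intro c
    constructor
    · intro j hj k
      have hj' : (Sum.inl (c, j) : Vtx J M p) ∈ I := (Finset.mem_filter.1 hj).2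
      obtain ⟨x, hx, hxe⟩ := hz k (r c k) c j hj' rfl
      refine ⟨x, hx, ?_⟩
      show κ k x = z k (r c k) + b c k
      rw [← hxe, zmod2_cancel]
    · intro j hj j' hj' hd
      have h1 : (Sum.inl (c, j) : Vtx J M p) ∈ I := (Finset.mem_filter.1 hj).2
      have h2 : (Sum.inl (c, j') : Vtx J M p) ∈ I := (Finset.mem_filter.1 hj').2
      by_cases he : j = j'
      · subst he
        obtain ⟨x, hx⟩ := hne j
        exact Finset.disjoint_left.1 hd hx hx
      · apply hI _ h1 _ h2
        refine ⟨?_, (c, j), (c, j'), rfl, rfl, Or.inl ⟨rfl, hd⟩⟩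
        intro hh
        exact he (congrArg Prod.snd (Sum.inl.inj hh))
  have hle : ∀ c, (S c).card ≤ Smax pts κ (fun k => z k (r c k) + b c k) := by
    intro c
    unfold Smax
    exact Finset.le_sup (f := Finset.card) (Finset.mem_filter.2 ⟨Finset.mem_univ _, hgood c⟩)
  have hsub : I ⊆ (univ.biUnion fun c => (S c).image fun j => (Sum.inl (c, j) : Vtx J M p)) ∪
      univ.image (fun q : Fin p => (Sum.inr q : Vtx J M p)) := by
    intro u hu
    rcases u with ⟨c, j⟩ | q
    · apply Finset.mem_union_left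
      refine Finset.mem_biUnion.2 ⟨c, Finset.mem_univ _, Finset.mem_image.2 ⟨j, ?_, rfl⟩⟩
      exact Finset.mem_filter.2 ⟨Finset.mem_univ _, hu⟩
    · apply Finset.mem_union_right
      exact Finset.mem_image.2 ⟨q, Finset.mem_univ _, rfl⟩
  calc I.card ≤ _ := Finset.card_le_card hsub
    _ ≤ _ := Finset.card_union_le _ _
    _ ≤ ∑ c, Smax pts κ (fun k => z k (r c k) + b c k) + p := by
        apply Nat.add_le_add
        · refine Finset.card_biUnion_le.trans (Finset.sum_le_sum fun c _ => ?_)
          exact Finset.card_image_le.trans (hle c)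
        · exact Finset.card_image_le.trans (by simp)

end Pool.Agent.Lib.MP_af3183_lc
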