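import Pool.Agent.Lib.MP_af3183_lc.Core

/-!
# JOB VCC-Shift: existence of the shifts (Chernoff and union bound)

STATEMENT. `S >= 0` is a function on `Fin 15 -> ZMod 2` (`2^15` elements) with `sum_y S y < τ 2^15`. Then there is `Δ >= 1`
such that for all `N >= 1` and all `r : Fin (Δ N) -> Fin 15 -> Fin N` there is `b` such that for ALL
`z : Fin 15 -> Fin N -> ZMod 2`: `sum_c S (k -> z k (r c k) + b c k) <= τ Δ N`.

PROOF. `Y = Fin 15 -> ZMod 2`. Let `q lam = (sum_y exp (lam (S y - τ))) / 2^15`. There is `lam > 0` with `q lam < 1`: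
with `C = max |S y - τ|` (`Y` is finite) and `0 < lam <= 1/C'`, `C' = C + 1`: `exp x <= 1 + x + x^2` for `|x| <= 1`
(`Real.abs_exp_sub_one_sub_id_le`: `|exp x - 1 - x| <= x^2`), so `q lam <= 1 - lam η + lam^2 C'^2` with
`η = τ - (sum_y S y) / 2^15 > 0`, and `lam` small (`lam < η / C'^2`) makes it `< 1`. Alternatively: `q` is
differentiable, `q 0 = 1`, `q' 0 = -η < 0`. Choose `Δ >= 1` with `q^Δ * 2^15 < 1` (`exists_pow_lt_of_lt_one`). `M = Δ N`.
For fixed `z` and random `b`: `sum_b prod_c exp (lam (S (z.. + b c) - τ)) = prod_c sum_{b_c in Y} exp (lam (S (w_c + b_c) - τ))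
= (2^15 q)^M` (`Finset.prod_univ_sum`, `Fintype.piFinset_univ`; the translation `b_c -> w_c + b_c` is a bijection of
`Y`, `Equiv.sum_comp (Equiv.addLeft w_c)`), `w_c = (k -> z k (r c k))`. Suppose no `b` works: for every `b` there is `z`
with `sum_c S (...) > τ M`, so `1 < exp (lam (sum_c S - τ M)) = prod_c exp (lam (S (..) - τ)) <= sum_z prod_c ...`. Sum over all
`b` (`2^{15 M}` of them): `2^{15 M} <= sum_b sum_z prod = sum_z (2^15 q)^M = 2^{15 N} 2^{15 M} q^M`, so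
`1 <= 2^{15 N} q^{Δ N} = (2^15 q^Δ)^N < 1` (`N >= 1`), contradiction. (`|Fin 15 -> Fin N -> ZMod 2| = 2^{15 N}`.)
-/

namespace Pool.Agent.Lib.MP_af3183_lc

open Finset

private lemma shift_card : (Fintype.card (Fin 15 → ZMod 2) : ℝ) = 2 ^ 15 := by
  rw [Fintype.card_fun, ZMod.card, Fintype.card_fin]
  norm_num

private lemma shift_lam (S : (Fin 15 → ZMod 2) → ℝ) (τ : ℝ)
    (hτ : ∑ y, S y < τ * 2 ^ 15) :
    ∃ lam : ℝ, 0 < lam ∧ ∑ y, Real.exp (lam * (S y - τ)) < 2 ^ 15 := by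
  classical
  obtain ⟨C, hCdef⟩ : ∃ C : ℝ, C = 1 + ∑ y, |S y - τ| := ⟨_, rfl⟩
  have hsum0 : 0 ≤ ∑ y, |S y - τ| := Finset.sum_nonneg fun y _ => abs_nonneg _
  have hC1 : 1 ≤ C := by rw [hCdef]; linarith
  have hC : ∀ y, |S y - τ| ≤ C := by
    intro y
    have h := Finset.single_le_sum (f := fun y => |S y - τ|) (fun y _ => abs_nonneg _)
      (Finset.mem_univ y)
    rw [hCdef]
    linarith
  obtain ⟨η, hη⟩ : ∃ η : ℝ, η = τ * 2 ^ 15 - ∑ y, S y := ⟨_, rfl⟩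
  have hη0 : 0 < η := by rw [hη]; linarith
  obtain ⟨lam, hlamdef⟩ : ∃ lam : ℝ, lam = min (1 / C) (η / (2 ^ 16 * C ^ 2)) := ⟨_, rfl⟩
  have hCpos : 0 < C := by linarith
  have hlam : 0 < lam := by rw [hlamdef]; exact lt_min (by positivity) (by positivity)
  have h1 : lam ≤ 1 / C := by rw [hlamdef]; exact min_le_left _ _
  have h2 : lam ≤ η / (2 ^ 16 * C ^ 2) := by rw [hlamdef]; exact min_le_right _ _
  refine ⟨lam, hlam, ?_⟩
  have h1' : lam * C ≤ 1 := by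
    have := mul_le_mul_of_nonneg_right h1 hCpos.le
    rwa [one_div, inv_mul_cancel₀ hCpos.ne'] at this
  have h2' : lam * (2 ^ 16 * C ^ 2) ≤ η := by
    rwa [le_div_iff₀ (by positivity)] at h2
  have key : ∀ y, Real.exp (lam * (S y - τ)) ≤ 1 + lam * (S y - τ) + (lam * C) ^ 2 := by
    intro y
    have habs : |lam * (S y - τ)| ≤ lam * C := by
      rw [abs_mul, abs_of_pos hlam]
      exact mul_le_mul_of_nonneg_left (hC y) hlam.le
    have h := Real.abs_exp_sub_one_sub_id_le (habs.trans h1')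
    have h3 := (abs_le.1 h).2
    have h4 : (lam * (S y - τ)) ^ 2 ≤ (lam * C) ^ 2 := by
      rw [← sq_abs (lam * (S y - τ))]
      exact pow_le_pow_left₀ (abs_nonneg _) habs 2
    linarith
  have hle : ∑ y, Real.exp (lam * (S y - τ)) ≤ ∑ y, (1 + lam * (S y - τ) + (lam * C) ^ 2) :=
    Finset.sum_le_sum fun y _ => key y
  have heq : ∑ y : Fin 15 → ZMod 2, (1 + lam * (S y - τ) + (lam * C) ^ 2)
      = 2 ^ 15 + lam * (∑ y, S y - τ * 2 ^ 15) + 2 ^ 15 * (lam * C) ^ 2 := by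
    rw [Finset.sum_add_distrib, Finset.sum_add_distrib, ← Finset.mul_sum, Finset.sum_sub_distrib]
    simp only [Finset.sum_const, Finset.card_univ, nsmul_eq_mul, shift_card]
    ring
  rw [heq] at hle
  have h5 : lam * (∑ y, S y - τ * 2 ^ 15) = - (lam * η) := by rw [hη]; ring
  rw [h5] at hle
  have h6 : 2 ^ 15 * (lam * C) ^ 2 * 2 ≤ lam * η := by
    have := mul_le_mul_of_nonneg_left h2' hlam.le
    calc 2 ^ 15 * (lam * C) ^ 2 * 2 = lam * (lam * (2 ^ 16 * C ^ 2)) := by ring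
      _ ≤ lam * η := this
  have h7 : 0 < lam * η := mul_pos hlam hη0
  linarith

theorem exists_shift (S : (Fin 15 → ZMod 2) → ℝ) (hS : ∀ y, 0 ≤ S y) (τ : ℝ)
    (hτ : ∑ y, S y < τ * 2 ^ 15) :
    ∃ Δ : ℕ, 1 ≤ Δ ∧ ∀ N : ℕ, 1 ≤ N → ∀ r : Fin (Δ * N) → Fin 15 → Fin N,
      ∃ b : Fin (Δ * N) → Fin 15 → ZMod 2, ∀ z : Fin 15 → Fin N → ZMod 2,
        ∑ c, S (fun k => z k (r c k) + b c k) ≤ τ * (Δ * N) := by
  classical
  obtain ⟨lam, hlam, hq⟩ := shift_lam S τ hτ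
  obtain ⟨Q, hQ⟩ : ∃ Q : ℝ, Q = ∑ y, Real.exp (lam * (S y - τ)) := ⟨_, rfl⟩
  rw [← hQ] at hq
  have hQ0 : 0 < Q := by
    rw [hQ]
    exact Finset.sum_pos (fun y _ => Real.exp_pos _) ⟨0, Finset.mem_univ _⟩
  have hq1 : Q / 2 ^ 15 < 1 := by rw [div_lt_one (by positivity)]; exact hq
  have hq0 : 0 < Q / 2 ^ 15 := by positivity
  obtain ⟨Δ, hΔ⟩ := exists_pow_lt_of_lt_one (show (0 : ℝ) < 1 / 2 ^ 15 by positivity) hq1
  refine ⟨Δ + 1, by omega, fun N hN r => ?_⟩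
  by_contra hcon
  push Not at hcon
  have hΔ' : (Q / 2 ^ 15) ^ (Δ + 1) * 2 ^ 15 < 1 := by
    have h1 : (Q / 2 ^ 15) ^ (Δ + 1) ≤ (Q / 2 ^ 15) ^ Δ :=
      pow_le_pow_of_le_one hq0.le hq1.le (by omega)
    have h2 : (Q / 2 ^ 15) ^ (Δ + 1) < 1 / 2 ^ 15 := lt_of_le_of_lt h1 hΔ
    rwa [lt_div_iff₀ (by positivity)] at h2
  -- the function summed
  have hterm : ∀ b : Fin ((Δ + 1) * N) → Fin 15 → ZMod 2,
      (1 : ℝ) ≤ ∑ z : Fin 15 → Fin N → ZMod 2,
        ∏ c, Real.exp (lam * (S (fun k => z k (r c k) + b c k) - τ)) := by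
    intro b
    obtain ⟨z, hz⟩ := hcon b
    have h1 : (1 : ℝ) ≤ ∏ c, Real.exp (lam * (S (fun k => z k (r c k) + b c k) - τ)) := by
      rw [← Real.exp_sum, ← Finset.mul_sum, Finset.sum_sub_distrib]
      apply Real.one_le_exp
      apply mul_nonneg hlam.le
      simp only [Finset.sum_const, Finset.card_univ, Fintype.card_fin, nsmul_eq_mul]
      push_cast
      push_cast at hz
      linarith
    refine h1.trans ?_
    exact Finset.single_le_sum
      (f := fun z : Fin 15 → Fin N → ZMod 2 =>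
        ∏ c, Real.exp (lam * (S (fun k => z k (r c k) + b c k) - τ)))
      (fun z _ => Finset.prod_nonneg fun c _ => (Real.exp_pos _).le) (Finset.mem_univ z)
  have hinner : ∀ z : Fin 15 → Fin N → ZMod 2,
      ∑ b : Fin ((Δ + 1) * N) → Fin 15 → ZMod 2,
        ∏ c, Real.exp (lam * (S (fun k => z k (r c k) + b c k) - τ)) = Q ^ ((Δ + 1) * N) := by
    intro z
    have h1 := Finset.prod_univ_sum (fun _ : Fin ((Δ + 1) * N) =>
      (Finset.univ : Finset (Fin 15 → ZMod 2)))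
      (fun c y => Real.exp (lam * (S (fun k => z k (r c k) + y k) - τ)))
    rw [Fintype.piFinset_univ] at h1
    rw [← h1]
    have h2 : ∀ c : Fin ((Δ + 1) * N),
        ∑ y : Fin 15 → ZMod 2, Real.exp (lam * (S (fun k => z k (r c k) + y k) - τ)) = Q := by
      intro c
      rw [hQ]
      exact Equiv.sum_comp (Equiv.addLeft (fun k => z k (r c k)))
        (fun y : Fin 15 → ZMod 2 => Real.exp (lam * (S y - τ)))
    rw [Finset.prod_congr rfl fun c _ => h2 c, Finset.prod_const, Finset.card_univ,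
      Fintype.card_fin]
  have hsum : ((2 : ℝ) ^ 15) ^ ((Δ + 1) * N) ≤ (2 ^ 15) ^ N * Q ^ ((Δ + 1) * N) := by
    have h1 : ∑ b : Fin ((Δ + 1) * N) → Fin 15 → ZMod 2, (1 : ℝ) ≤
        ∑ b : Fin ((Δ + 1) * N) → Fin 15 → ZMod 2, ∑ z : Fin 15 → Fin N → ZMod 2,
          ∏ c, Real.exp (lam * (S (fun k => z k (r c k) + b c k) - τ)) :=
      Finset.sum_le_sum fun b _ => hterm b
    rw [Finset.sum_comm, Finset.sum_congr rfl fun z _ => hinner z] at h1
    simp only [Finset.sum_const, Finset.card_univ, nsmul_eq_mul, mul_one] at h1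
    have h2 : (Fintype.card (Fin ((Δ + 1) * N) → Fin 15 → ZMod 2) : ℝ)
        = (2 ^ 15) ^ ((Δ + 1) * N) := by
      rw [Fintype.card_fun, Fintype.card_fin]
      push_cast
      rw [shift_card]
    have h3 : (Fintype.card (Fin 15 → Fin N → ZMod 2) : ℝ) = (2 ^ 15) ^ N := by
      rw [Fintype.card_fun, Fintype.card_fun, ZMod.card, Fintype.card_fin, Fintype.card_fin]
      push_cast
      rw [← pow_mul, ← pow_mul, mul_comm]
    rwa [h2, h3] at h1
  have hfin : (1 : ℝ) ≤ ((Q / 2 ^ 15) ^ (Δ + 1) * 2 ^ 15) ^ N := by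
    have h1 : ((Q / 2 ^ 15) ^ (Δ + 1) * 2 ^ 15) ^ N
        = ((2 ^ 15) ^ N * Q ^ ((Δ + 1) * N)) / ((2 : ℝ) ^ 15) ^ ((Δ + 1) * N) := by
      rw [mul_pow, ← pow_mul, div_pow]
      ring
    rw [h1, le_div_iff₀ (by positivity), one_mul]
    exact hsum
  have hlt : ((Q / 2 ^ 15) ^ (Δ + 1) * 2 ^ 15) ^ N < 1 :=
    pow_lt_one₀ (by positivity) hΔ' (by omega)
  linarith

end Pool.Agent.Lib.MP_af3183_lc
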