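import Pool.Agent.Lib.MP_af3183_lc.Dup
import Pool.Agent.Lib.MP_af3183_lc.Expander
import Pool.Agent.Lib.MP_af3183_lc.Shift
import Pool.Agent.Lib.MP_af3183_lc.Indep
import Pool.Agent.Lib.MP_af3183_lc.GadInv
import Pool.Agent.Lib.MP_af3183_lc.GadLoc

/-! Assembly of the linear-level gap `47/40`. -/

namespace Pool.Agent.Lib.MP_af3183_lc

open Finset

theorem sum_Smax : ∑ y, Smax gpts kap y ≤ 434816 := by
  rw [sum_inv (Smax gpts kap) Smax_inv]
  have h : ∑ n ∈ range 2048, Smax gpts kap (yof n) ≤ ∑ n ∈ range 2048, Eval.mval n :=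
    sum_le_sum fun n hn => Smax_yof n (mem_range.1 hn)
  rw [Eval.sum_mval] at h
  omega

theorem card_vtx (M p : ℕ) : Fintype.card (Vtx Gad M p) = 112 * M + p := by
  rw [Fintype.card_sum, Fintype.card_prod, gad_card, Fintype.card_fin, Fintype.card_fin]
  ring

/-- Upper bound: the cover number of the unshifted graph. -/
theorem vc_unshifted {M N : ℕ} (r : Fin M → Fin 15 → Fin N) (p : ℕ) :
    vc (gr gpts kap r (fun _ _ => 0) p) ≤ 84 * M := by
  classical
  let S : Finset (Vtx Gad M p) :=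
    ((univ : Finset (Fin M)) ×ˢ (univ.filter fun j : Gad => ¬ (0 : Vec) ∈ gpts j)).map
      ⟨Sum.inl, Sum.inl_injective⟩
  have hS : IsCover (gr gpts kap r (fun _ _ => 0) p) S := by
    rintro u v ⟨-, a, a', rfl, rfl, h⟩
    by_contra hcon
    push Not at hcon
    have h1 : (0 : Vec) ∈ gpts a.2 := by
      by_contra h0
      exact hcon.1 (mem_map.2 ⟨a, by simp [h0], rfl⟩)
    have h2 : (0 : Vec) ∈ gpts a'.2 := by
      by_contra h0
      exact hcon.2 (mem_map.2 ⟨a', by simp [h0], rfl⟩)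
    rcases h with ⟨-, h⟩ | ⟨k, -, h⟩
    · exact (Finset.disjoint_left.1 h h1) h2
    · exact h 0 h1 0 h2 rfl
  refine (vc_le _ S hS).trans ?_
  have h28 := gad_zero
  have hcard : (univ.filter fun j : Gad => ¬ (0 : Vec) ∈ gpts j).card = 84 := by
    have h3 := card_filter_add_card_filter_not (s := (univ : Finset Gad)) (fun j => (0 : Vec) ∈ gpts j)
    have h4 := gad_card
    rw [← card_univ] at h4
    omega
  rw [card_map, card_product, hcard, card_univ, Fintype.card_fin]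
  omega

/-- Lower bound: the cover number of the shifted graph. -/
theorem vc_shifted {M N : ℕ} (r : Fin M → Fin 15 → Fin N) (b : Fin M → Fin 15 → ZMod 2) (p : ℕ)
    (hb : ∀ z : Fin 15 → Fin N → ZMod 2,
      ∑ c, (Smax gpts kap (fun k => z k (r c k) + b c k) : ℝ) ≤ 133 / 10 * M) :
    (987 / 10 : ℝ) * M ≤ vc (gr gpts kap r b p) := by
  classical
  obtain ⟨S, hS, hc⟩ := exists_vc (gr gpts kap r b p)
  obtain ⟨z, hz⟩ := indep_le gpts gpts_nonempty kap r b p Sᶜ (by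
    intro u hu v hv huv
    rcases hS u v huv with h | h
    · exact (mem_compl.1 hu) h
    · exact (mem_compl.1 hv) h)
  have h1 : (Sᶜ).card + S.card = 112 * M + p := by
    rw [← card_vtx M p, add_comm, card_add_card_compl]
  have h2 := hb z
  have h3 : ((Sᶜ).card : ℝ) ≤ ∑ c, (Smax gpts kap (fun k => z k (r c k) + b c k) : ℝ) + p := by
    exact_mod_cast hz
  have h4 : ((Sᶜ).card : ℝ) + S.card = 112 * M + p := by exact_mod_cast h1
  rw [← hc]
  linarith

theorem linear_gap : ∃ δ : ℝ, 0 < δ ∧ ∃ n₀ : ℕ, ∀ n : ℕ, n₀ ≤ n →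
    ∃ G H : SimpleGraph (Fin n), (∃ u v, H.Adj u v) ∧ CEquiv ⌊δ * n⌋₊ G H ∧
      (47 / 40 : ℝ) * vc H ≤ vc G := by
  obtain ⟨Δ, hΔ, hshift⟩ := exists_shift (fun y => (Smax gpts kap y : ℝ)) (fun y => Nat.cast_nonneg _)
    (133 / 10) (by
      have h : ((∑ y, Smax gpts kap y : ℕ) : ℝ) ≤ 434816 := by exact_mod_cast sum_Smax
      rw [Nat.cast_sum] at h
      refine lt_of_le_of_lt h ?_
      norm_num)
  obtain ⟨γ, hγ, hexp⟩ := exists_expander Δ
  have hΔ' : (1 : ℝ) ≤ Δ := by exact_mod_cast hΔ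
  refine ⟨γ / (180 * 224 * Δ), by positivity, 112 * Δ, fun n hn => ?_⟩
  have hpos : 0 < 112 * Δ := by omega
  set N : ℕ := n / (112 * Δ) with hN
  have hN1 : 1 ≤ N := (Nat.one_le_div_iff hpos).2 hn
  have hNle : 112 * Δ * N ≤ n := Nat.mul_div_le n (112 * Δ)
  have hNlt : n < 112 * Δ * (N + 1) := Nat.lt_mul_div_succ n hpos
  obtain ⟨r, hr⟩ := hexp N hN1
  obtain ⟨b, hb⟩ := hshift N hN1 r
  have hM1 : 1 ≤ Δ * N := Nat.mul_pos hΔ hN1
  obtain ⟨p, hp⟩ : ∃ p, p = n - 112 * (Δ * N) := ⟨_, rfl⟩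
  have hMn : 112 * (Δ * N) + p = n := by
    have : 112 * (Δ * N) = 112 * Δ * N := by ring
    omega
  have hcard : Fintype.card (Vtx Gad (Δ * N) p) = Fintype.card (Fin n) := by
    rw [card_vtx, Fintype.card_fin, hMn]
  let e : Vtx Gad (Δ * N) p ≃ Fin n := Fintype.equivOfCardEq hcard
  obtain ⟨sh, hsh⟩ := exists_gsh
  refine ⟨tr e (gr gpts kap r b p), tr e (gr gpts kap r (fun _ _ => 0) p), ?_, ?_, ?_⟩
  · obtain ⟨j, j', hj, hd⟩ := gad_disj
    refine ⟨e (Sum.inl (⟨0, hM1⟩, j)), e (Sum.inl (⟨0, hM1⟩, j')), ?_⟩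
    rw [tr_adj, e.symm_apply_apply, e.symm_apply_apply]
    refine ⟨fun h => hj (Prod.mk.inj (Sum.inl_injective h)).2, _, _, rfl, rfl, Or.inl ⟨rfl, hd⟩⟩
  · refine cequiv_tr e _ _ (cequiv_gr gpts kap kap_add kap_dual sh hsh r b p _ _ hr ?_)
    refine Nat.le_floor ?_
    have h1 : (⌊γ / (180 * 224 * Δ) * n⌋₊ : ℝ) ≤ γ / (180 * 224 * Δ) * n :=
      Nat.floor_le (by positivity)
    have h2 : (n : ℝ) ≤ 224 * Δ * N := by
      have : n ≤ 224 * Δ * N := by nlinarith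
      exact_mod_cast this
    push_cast
    calc (180 : ℝ) * ⌊γ / (180 * 224 * Δ) * n⌋₊ ≤ 180 * (γ / (180 * 224 * Δ) * n) := by gcongr
      _ ≤ 180 * (γ / (180 * 224 * Δ) * (224 * Δ * N)) := by gcongr
      _ = γ * N := by field_simp
  · rw [vc_tr, vc_tr]
    have h1 : (vc (gr gpts kap r (fun _ _ => 0) p) : ℝ) ≤ 84 * ((Δ * N : ℕ) : ℝ) := by
      exact_mod_cast vc_unshifted r p
    have h2 := vc_shifted r b p (by
      intro z
      have := hb z
      push_cast; exact this)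
    linarith

end Pool.Agent.Lib.MP_af3183_lc
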