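import Pool.Agent.Lib.MP_af3183_lc.GadY

/-!
# JOB VCC-GadLocA: finite facts for the local bound

(1) `mask_iff`: the plane `(i, α, β, v, w)` is disjoint from the tetrahedron `tet (vec m)`, `m < 8`, iff bit `m` of
`Eval.edge i v w` is set. Finite check: the version with `v w : Fin 2`, `m : Fin 8` is proved by `decide +kernel`
(25 seconds, tested): `∀ i : Fin 6, ∀ v w : Fin 2, ∀ α β : Fin 2, ∀ m : Fin 8, (Disjoint (gpts (Sum.inr
(i,α,β,(v:ZMod 2),(w:ZMod 2)))) (tet (vec m))) ↔ Nat.testBit (Eval.edge i v w) m`.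
(2) `cnt_edges`: unfold `Eval.edges, Eval.lineE, Eval.addE, Eval.sel` (`sel c x y = x` if `c = 0`, `y` otherwise; `c` is a
residue modulo 2) and `Eval.cnt_eq` (or `cnt T (e :: l) = (1 - (e &&& T)) + cnt T l` by `rfl`); the lifts are
`A = la i + 8 α`, `B = lb i + 8 β`, `C = lc i + 8 ((α + β) % 2)`, `lc = (3, 5, 7, 6, 7, 7)`.
(3) `ts_mem`: a set `s` of numbers `< 8` without pairs `m, 7 - m`: its code is in `Eval.Ts` (`decide` over `Finset (Fin 8)`,
256 cases). (4) `tet_disj`: `decide`. (5) `tet_three`: points of `tet t` have last coordinate `t 3`.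
(6) `dot_lift`: `vec A + vec B = vec C`, so `dot (vec C) x = dot (vec A) x + dot (vec B) x` (`decide` for the vectors).
-/

namespace Pool.Agent.Lib.MP_af3183_lc

open Finset

/-- Third points of the six lines. -/
def lc : Fin 6 → ℕ := ![3, 5, 7, 6, 7, 7]

private theorem GadLocA_mask : ∀ i : Fin 6, ∀ v w : Fin 2, ∀ α β : Fin 2, ∀ m : Fin 8,
    Disjoint (gpts (Sum.inr (i, α, β, ((v.val : ℕ) : ZMod 2), ((w.val : ℕ) : ZMod 2)))) (tet (vec m.val)) ↔
      (Eval.edge i v w).testBit m.val = true := by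
  decide +kernel

theorem mask_iff (i : Fin 6) (α β : Fin 2) (v w m : ℕ) (hv : v < 2) (hw : w < 2) (hm : m < 8) :
    Disjoint (gpts (Sum.inr (i, α, β, (v : ZMod 2), (w : ZMod 2)))) (tet (vec m)) ↔
      (Eval.edge i v w).testBit m = true :=
  GadLocA_mask i ⟨v, hv⟩ ⟨w, hw⟩ α β ⟨m, hm⟩

private theorem GadLocA_addE (T i u v w : ℕ) (l : List ℕ) :
    Eval.cnt T (Eval.addE i u v w l) =
      (if (u + v + w) % 2 = 0 ∧ (Eval.edge i u v) &&& T = 0 then 1 else 0) + Eval.cnt T l := by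
  have hcons : ∀ e l', Eval.cnt T (e :: l') = (1 - (e &&& T)) + Eval.cnt T l' := fun _ _ => rfl
  have hmod : Nat.mod (Nat.add u (Nat.add v w)) 2 = (u + v + w) % 2 := by
    change (u + (v + w)) % 2 = (u + v + w) % 2
    rw [add_assoc]
  unfold Eval.addE
  rw [hmod]
  rcases Nat.mod_two_eq_zero_or_one (u + v + w) with h | h
  · rw [h]
    change Eval.cnt T (Eval.edge i u v :: l) = _
    rw [hcons]
    by_cases he : (Eval.edge i u v) &&& T = 0
    · rw [he]; simp
    · have : 1 - ((Eval.edge i u v) &&& T) = 0 := by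
        have : 1 ≤ (Eval.edge i u v) &&& T := Nat.one_le_iff_ne_zero.2 he
        omega
      rw [this]; simp [he]
  · rw [h]
    change Eval.cnt T l = _
    simp

private theorem GadLocA_line (T Y a b c i : ℕ) (l : List ℕ) :
    Eval.cnt T (Eval.lineE Y a b c i l) =
      (∑ q : Fin 2 × Fin 2, if (Eval.bt Y (a + 8 * q.1) + Eval.bt Y (b + 8 * q.2) +
        Eval.bt Y (c + 8 * ((q.1.val + q.2.val) % 2))) % 2 = 0 ∧
        (Eval.edge i (Eval.bt Y (a + 8 * q.1)) (Eval.bt Y (b + 8 * q.2))) &&& T = 0 then 1 else 0) +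
      Eval.cnt T l := by
  unfold Eval.lineE
  rw [GadLocA_addE, GadLocA_addE, GadLocA_addE, GadLocA_addE]
  rw [Fintype.sum_prod_type]
  simp only [Fin.sum_univ_two, Fin.val_zero, Fin.val_one, mul_zero, add_zero, mul_one, zero_add,
    Nat.zero_mod, Nat.one_mod, Nat.reduceAdd, Nat.reduceMod, Nat.add_eq]
  ring

theorem cnt_edges (T Y : ℕ) : Eval.cnt T (Eval.edges Y) =
    (univ.filter fun q : Fin 6 × Fin 2 × Fin 2 =>
      (Eval.bt Y (la q.1 + 8 * q.2.1) + Eval.bt Y (lb q.1 + 8 * q.2.2) +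
        Eval.bt Y (lc q.1 + 8 * ((q.2.1.val + q.2.2.val) % 2))) % 2 = 0 ∧
      (Eval.edge q.1 (Eval.bt Y (la q.1 + 8 * q.2.1)) (Eval.bt Y (lb q.1 + 8 * q.2.2))) &&& T = 0).card := by
  rw [Finset.card_filter, Fintype.sum_prod_type]
  unfold Eval.edges
  rw [GadLocA_line, GadLocA_line, GadLocA_line, GadLocA_line, GadLocA_line, GadLocA_line]
  have h0 : Eval.cnt T [] = 0 := rfl
  rw [h0, Fin.sum_univ_six]
  simp only [add_assoc, add_zero]
  rfl

private theorem GadLocA_ts : ∀ s : Finset (Fin 8), (∀ m ∈ s, (7 - m) ∉ s) →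
    (∑ m ∈ s, 2 ^ m.val) + 256 * s.card ∈ Eval.Ts := by
  decide +kernel

theorem ts_mem (s : Finset (Fin 8)) (hs : ∀ m ∈ s, (7 - m) ∉ s) :
    (∑ m ∈ s, 2 ^ m.val) + 256 * s.card ∈ Eval.Ts :=
  GadLocA_ts s hs

private theorem GadLocA_disj : ∀ m : Fin 8, Disjoint (tet (vec m.val)) (tet (vec (7 - m).val)) := by
  decide +kernel

theorem tet_disj (m : Fin 8) : Disjoint (tet (vec m.val)) (tet (vec (7 - m).val)) :=
  GadLocA_disj m

private theorem GadLocA_three : ∀ t x : Vec, x ∈ tet t → x 3 = t 3 := by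
  decide +kernel

theorem tet_three (t x : Vec) (hx : x ∈ tet t) : x 3 = t 3 :=
  GadLocA_three t x hx

private theorem GadLocA_surj : ∀ t : Vec, t 3 = 0 → ∃ m : Fin 8, t = vec m.val := by
  decide +kernel

theorem vec_surj (t : Vec) (ht : t 3 = 0) : ∃ m : Fin 8, t = vec m.val :=
  GadLocA_surj t ht

private theorem GadLocA_inj : ∀ m m' : Fin 8, vec m.val = vec m'.val → m = m' := by
  decide +kernel

theorem vec_inj (m m' : Fin 8) (h : vec m.val = vec m'.val) : m = m' :=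
  GadLocA_inj m m' h

private theorem GadLocA_vec : ∀ (i : Fin 6) (α β : Fin 2),
    vec (lc i + 8 * ((α.val + β.val) % 2)) = vec (la i + 8 * α) + vec (lb i + 8 * β) := by
  decide +kernel

theorem dot_lift (i : Fin 6) (α β : Fin 2) (x : Vec) :
    dot (vec (lc i + 8 * ((α.val + β.val) % 2))) x =
      dot (vec (la i + 8 * α)) x + dot (vec (lb i + 8 * β)) x := by
  rw [GadLocA_vec i α β]
  simp [dot, add_mul, Finset.sum_add_distrib]

end Pool.Agent.Lib.MP_af3183_lc
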