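import Pool.Agent.Lib.MP_af3183_lc.GadEval

/-! Consequences of the kernel evaluation in `GadEval`. -/

namespace Pool.Agent.Lib.MP_af3183_lc.Eval

theorem chk_spec (es : List ℕ) (m : ℕ) (ts : List ℕ) (h : chk es m ts = true) :
    ∀ T ∈ ts, T / 256 + cnt (T % 256) es ≤ m := by
  induction ts with
  | nil => intro T hT; simp at hT
  | cons a l ih =>
    have h' : Bool.rec false (chk es m l) (Nat.ble (Nat.add (Nat.div a 256) (cnt (Nat.mod a 256) es)) m)
        = true := h
    cases hb : Nat.ble (Nat.add (Nat.div a 256) (cnt (Nat.mod a 256) es)) m with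
    | false => rw [hb] at h'; exact absurd h' (by simp)
    | true =>
      rw [hb] at h'
      intro T hT
      rcases List.mem_cons.1 hT with rfl | hT
      · exact Nat.le_of_ble_eq_true hb
      · exact ih h' T hT

theorem run_spec (lo n : ℕ) (h : run lo n = true) :
    ∀ i < n, chk (edges (wordOf (lo + i))) (mval (lo + i)) Ts = true := by
  induction n with
  | zero => intro i hi; omega
  | succ n ih =>
    have h' : Bool.rec false (run lo n)
        (chk (edges (wordOf (Nat.add lo n))) (mval (Nat.add lo n)) Ts) = true := h
    cases hb : chk (edges (wordOf (Nat.add lo n))) (mval (Nat.add lo n)) Ts with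
    | false => rw [hb] at h'; exact absurd h' (by simp)
    | true =>
      rw [hb] at h'
      intro i hi
      rcases Nat.lt_succ_iff_lt_or_eq.1 hi with hi | rfl
      · exact ih h' i hi
      · exact hb

theorem chk_all (n : ℕ) (hn : n < 2048) : chk (edges (wordOf n)) (mval n) Ts = true := by
  have key : ∀ q, q < 16 → run (128 * q) 128 = true := by
    intro q hq
    interval_cases q
    · exact run_0
    · exact run_1
    · exact run_2
    · exact run_3
    · exact run_4
    · exact run_5
    · exact run_6
    · exact run_7
    · exact run_8
    · exact run_9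
    · exact run_10
    · exact run_11
    · exact run_12
    · exact run_13
    · exact run_14
    · exact run_15
  have h := run_spec (128 * (n / 128)) 128 (key (n / 128) (by omega)) (n % 128) (Nat.mod_lt _ (by norm_num))
  rwa [Nat.div_add_mod] at h

/-- The evaluation: for every code `n < 2048` and every transversal, size plus number of masks disjoint
from it is at most `mval n`. -/
theorem eval_le (n : ℕ) (hn : n < 2048) (T : ℕ) (hT : T ∈ Ts) :
    T / 256 + cnt (T % 256) (edges (wordOf n)) ≤ mval n :=
  chk_spec _ _ _ (chk_all n hn) T hT

theorem msum_spec (n : ℕ) : msum n = ∑ i ∈ Finset.range n, mval i := by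
  induction n with
  | zero => rfl
  | succ n ih =>
    rw [Finset.sum_range_succ, ← ih]
    show Nat.add (mval n) (msum n) = _
    exact Nat.add_comm _ _

theorem sum_mval : ∑ i ∈ Finset.range 2048, mval i = 27176 := by
  rw [← msum_spec]; exact msum_eq

/-- `cnt` as a filter length. -/
theorem cnt_eq (T : ℕ) (l : List ℕ) : cnt T l = (l.filter fun e => e &&& T = 0).length := by
  induction l with
  | nil => rfl
  | cons a l ih =>
    have h : cnt T (a :: l) = (1 - (a &&& T)) + cnt T l := rfl
    rw [h, ih, List.filter_cons]
    by_cases h0 : a &&& T = 0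
    · simp [h0]; omega
    · have : 1 - (a &&& T) = 0 := by omega
      simp [h0, this]

end Pool.Agent.Lib.MP_af3183_lc.Eval
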