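import Pool.Agent.Lib.MP_af3183_lc.Core
import Pool.Agent.Lib.MP_af3183_lc.GadTab

/-! The representative words `yof n`, `n < 2048`: coordinate `k` is the bit `k + 1` of `wordOf n`. -/

namespace Pool.Agent.Lib.MP_af3183_lc

/-- The representative word with code `n`; it vanishes at the coordinates `0, 1, 3, 7` (functionals with
bits `1, 2, 4, 8`). -/
noncomputable def yof (n : ℕ) (k : Fin 15) : ZMod 2 := (Eval.bt (Eval.wordOf n) (k + 1) : ZMod 2)

end Pool.Agent.Lib.MP_af3183_lc
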