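import Pool.Agent.Lib.MP_af3183_lc.Logic

/-! Back-and-forth systems of bijections give `C^k`-equivalence; transport along a bijection. -/

namespace Pool.Agent.Lib.MP_af3183_lc

/-- If `R` is a non-empty system of pairs of assignments, consisting of partial isomorphisms and closed
under the bijection moves, the graphs are `C^k`-equivalent. -/
theorem cequiv_of_bij {k : ℕ} {V W : Type} (G : SimpleGraph V) (H : SimpleGraph W)
    (R : (Fin k → V) → (Fin k → W) → Prop)
    (hstart : ∀ σ, ∃ τ, R σ τ) (hstart' : ∀ τ, ∃ σ, R σ τ)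
    (heq : ∀ σ τ, R σ τ → ∀ i j, (σ i = σ j ↔ τ i = τ j))
    (hadj : ∀ σ τ, R σ τ → ∀ i j, (G.Adj (σ i) (σ j) ↔ H.Adj (τ i) (τ j)))
    (hbij : ∀ σ τ, R σ τ → ∀ i, ∃ f : V ≃ W, ∀ v,
      R (Function.update σ i v) (Function.update τ i (f v))) :
    CEquiv k G H := by
  have key : ∀ φ : CForm k, ∀ σ τ, R σ τ → (φ.Sat G σ ↔ φ.Sat H τ) := by
    intro φ
    induction φ with
    | eq i j => intro σ τ h; exact heq σ τ h i j
    | adj i j => intro σ τ h; exact hadj σ τ h i j
    | neg φ ih => intro σ τ h; exact not_congr (ih σ τ h)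
    | conj φ ψ ih1 ih2 => intro σ τ h; exact and_congr (ih1 σ τ h) (ih2 σ τ h)
    | exGe m i φ ih =>
      intro σ τ h
      obtain ⟨f, hf⟩ := hbij σ τ h i
      have e : {v : V // φ.Sat G (Function.update σ i v)} ≃ {w : W // φ.Sat H (Function.update τ i w)} :=
        f.subtypeEquiv fun v => ih _ _ (hf v)
      show m + 1 ≤ Nat.card _ ↔ m + 1 ≤ Nat.card _
      rw [Nat.card_congr e]
  intro φ _
  constructor
  · intro h τ
    obtain ⟨σ, hσ⟩ := hstart' τ
    exact (key φ σ τ hσ).1 (h σ)
  · intro h σ
    obtain ⟨τ, hτ⟩ := hstart σ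
    exact (key φ σ τ hτ).2 (h τ)

/-- Transport of a graph along a bijection. -/
def tr {V W : Type} (e : V ≃ W) (G : SimpleGraph V) : SimpleGraph W := G.comap e.symm

theorem tr_adj {V W : Type} (e : V ≃ W) (G : SimpleGraph V) (x y : W) :
    (tr e G).Adj x y ↔ G.Adj (e.symm x) (e.symm y) := Iff.rfl

theorem sat_tr {k : ℕ} {V W : Type} (e : V ≃ W) (G : SimpleGraph V) (φ : CForm k) :
    ∀ σ : Fin k → W, φ.Sat (tr e G) σ ↔ φ.Sat G (fun i => e.symm (σ i)) := by
  induction φ with
  | eq i j => intro σ; exact (e.symm.injective.eq_iff).symm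
  | adj i j => intro σ; exact Iff.rfl
  | neg φ ih => intro σ; exact not_congr (ih σ)
  | conj φ ψ ih1 ih2 => intro σ; exact and_congr (ih1 σ) (ih2 σ)
  | exGe m i φ ih =>
    intro σ
    have e' : {w : W // φ.Sat (tr e G) (Function.update σ i w)} ≃
        {v : V // φ.Sat G (Function.update (fun i => e.symm (σ i)) i v)} :=
      e.symm.subtypeEquiv fun w => by
        rw [ih]
        have : (fun j => e.symm (Function.update σ i w j)) =
            Function.update (fun i => e.symm (σ i)) i (e.symm w) := by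
          funext j
          by_cases h : j = i
          · subst h; simp
          · simp [h]
        rw [this]
    show m + 1 ≤ Nat.card _ ↔ m + 1 ≤ Nat.card _
    rw [Nat.card_congr e']

theorem holds_tr {k : ℕ} {V W : Type} (e : V ≃ W) (G : SimpleGraph V) (φ : CForm k) :
    φ.Holds (tr e G) ↔ φ.Holds G := by
  constructor
  · intro h σ
    have := (sat_tr e G φ (fun i => e (σ i))).1 (h _)
    simpa using this
  · intro h σ
    exact (sat_tr e G φ σ).2 (h _)

theorem cequiv_tr {k : ℕ} {V W : Type} (e : V ≃ W) (G H : SimpleGraph V) (h : CEquiv k G H) :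
    CEquiv k (tr e G) (tr e H) := fun φ hφ => by
  rw [holds_tr, holds_tr]; exact h φ hφ

theorem isCover_tr {V W : Type} (e : V ≃ W) (G : SimpleGraph V) (S : Finset V) :
    IsCover (tr e G) (S.map e.toEmbedding) ↔ IsCover G S := by
  constructor
  · intro h u v huv
    have := h (e u) (e v) (by rw [tr_adj]; simpa using huv)
    simpa using this
  · intro h x y hxy
    have := h (e.symm x) (e.symm y) hxy
    rcases this with h1 | h1
    · left; exact Finset.mem_map.2 ⟨_, h1, by simp⟩
    · right; exact Finset.mem_map.2 ⟨_, h1, by simp⟩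

/-- Upper bound for `vc` from a cover. -/
theorem vc_le {V : Type} [Fintype V] (G : SimpleGraph V) (S : Finset V) (h : IsCover G S) :
    vc G ≤ S.card := Nat.sInf_le ⟨S, h, rfl⟩

/-- A minimum cover exists. -/
theorem exists_vc {V : Type} [Fintype V] (G : SimpleGraph V) :
    ∃ S : Finset V, IsCover G S ∧ S.card = vc G :=
  Nat.sInf_mem (s := {c : ℕ | ∃ S : Finset V, IsCover G S ∧ S.card = c})
    ⟨_, Finset.univ, fun u v _ => Or.inl (Finset.mem_univ u), rfl⟩

theorem vc_tr {V W : Type} [Fintype V] [Fintype W] (e : V ≃ W) (G : SimpleGraph V) :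
    vc (tr e G) = vc G := by
  apply le_antisymm
  · obtain ⟨S, hS, hc⟩ := exists_vc G
    rw [← hc]
    have := vc_le (tr e G) (S.map e.toEmbedding) ((isCover_tr e G S).2 hS)
    simpa using this
  · obtain ⟨S, hS, hc⟩ := exists_vc (tr e G)
    rw [← hc]
    have h1 : IsCover G (S.map e.symm.toEmbedding) := by
      rw [← isCover_tr e G]
      have : (S.map e.symm.toEmbedding).map e.toEmbedding = S := by
        ext x; simp
      rw [this]; exact hS
    have := vc_le G _ h1
    simpa using this

end Pool.Agent.Lib.MP_af3183_lc
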