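import Mathlib

/-!
Definitions used in the statement for MP_af3183_lc: the logic `C^k` (first-order logic with counting
quantifiers and `k` variables) on graphs, equivalence in `C^k`, and the vertex cover number.
-/

namespace Pool.Agent.Lib.MP_af3183_lc

/-- Formulas of first-order logic with counting over the vocabulary of graphs, using only the `k`
variables `x_i`, `i : Fin k`. Variables may be reused. `exGe m i φ` stands for `∃^{≥ m+1} x_i φ`, so that
every threshold `≥ 1` occurs. The other connectives and the quantifiers `∀`, `∃` are definable. -/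
inductive CForm (k : ℕ) : Type
  | eq (i j : Fin k) : CForm k
  | adj (i j : Fin k) : CForm k
  | neg (φ : CForm k) : CForm k
  | conj (φ ψ : CForm k) : CForm k
  | exGe (m : ℕ) (i : Fin k) (φ : CForm k) : CForm k

namespace CForm

/-- Satisfaction of a formula in the graph `G` under the assignment `σ` of vertices to the variables. -/
def Sat {k : ℕ} {V : Type} (G : SimpleGraph V) : CForm k → (Fin k → V) → Prop
  | eq i j, σ => σ i = σ j
  | adj i j, σ => G.Adj (σ i) (σ j)
  | neg φ, σ => ¬ Sat G φ σ
  | conj φ ψ, σ => Sat G φ σ ∧ Sat G ψ σ
  | exGe m i φ, σ => m + 1 ≤ Nat.card {v : V // Sat G φ (Function.update σ i v)}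

/-- The free variables of a formula. -/
def free {k : ℕ} : CForm k → Finset (Fin k)
  | eq i j => {i, j}
  | adj i j => {i, j}
  | neg φ => free φ
  | conj φ ψ => free φ ∪ free ψ
  | exGe _ i φ => (free φ).erase i

/-- A sentence is a formula without free variables. -/
def IsSentence {k : ℕ} (φ : CForm k) : Prop := free φ = ∅

/-- Truth of a formula in `G`: it is satisfied under all assignments (for a sentence the assignment does
not matter). -/
def Holds {k : ℕ} {V : Type} (φ : CForm k) (G : SimpleGraph V) : Prop := ∀ σ : Fin k → V, Sat G φ σ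

end CForm

/-- `G ≡^C_k H`: the graphs satisfy exactly the same sentences of `C^k`. -/
def CEquiv (k : ℕ) {V W : Type} (G : SimpleGraph V) (H : SimpleGraph W) : Prop :=
  ∀ φ : CForm k, φ.IsSentence → (φ.Holds G ↔ φ.Holds H)

/-- `S` is a vertex cover of `G`. -/
def IsCover {V : Type} (G : SimpleGraph V) (S : Finset V) : Prop := ∀ u v : V, G.Adj u v → u ∈ S ∨ v ∈ S

/-- The vertex cover number: the least cardinality of a vertex cover. -/
noncomputable def vc {V : Type} [Fintype V] (G : SimpleGraph V) : ℕ :=
  sInf {c : ℕ | ∃ S : Finset V, IsCover G S ∧ S.card = c}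

end Pool.Agent.Lib.MP_af3183_lc
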